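import Pool.Agent.U85.Zd.Uz

set_option autoImplicit false

/-!
From the shortened interval to arbitrary measurable subsets of `[T, 2T]`.
-/

namespace Pool.Agent.U85.Zd

open Filter Topology MeasureTheory Complex
open Pool.Agent.Q97.UM Pool.Agent.U85.Chi

/-- number of zeros of zeta in the critical strip with the property `P` and with `|γ - t| ≤ r` -/
noncomputable def cnt (P : ℂ → Prop) (t r : ℝ) : ℕ :=
  Set.ncard {s : ℂ | riemannZeta s = 0 ∧ 0 < s.re ∧ s.re < 1 ∧ P s ∧ |s.im - t| ≤ r}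

open Classical in
theorem cnt_card (P : ℂ → Prop) {t r U V : ℝ} (hU : 1 ≤ U) (h1 : U < t - r) (h2 : t + r ≤ V) :
    cnt P t r = ((H370.Zf riemannZeta U V).filter (fun s => P s ∧ |s.im - t| ≤ r)).card := by
  unfold cnt
  rw [← Set.ncard_coe_finset]
  congr 1
  ext s
  rw [Finset.coe_filter]
  simp only [Set.mem_ofPred_eq, H370.mem_Zf H370.good_zeta hU, H370.zset]
  constructor
  · rintro ⟨a1, a2, a3, a4, a5⟩
    have := abs_le.1 a5
    exact ⟨⟨a2, a3, by linarith, by linarith, a1⟩, a4, a5⟩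
  · rintro ⟨⟨a2, a3, -, -, a1⟩, a4, a5⟩
    exact ⟨a1, a2, a3, a4, a5⟩

open Classical in
/-- the counting function as a finite sum -/
noncomputable def cs (P : ℂ → Prop) (T r t : ℝ) : ℝ :=
  ∑ s ∈ (H370.Zf riemannZeta (T - 2) (2 * T + 2)).filter P, if |s.im - t| ≤ r then (1 : ℝ) else 0

open Classical in
theorem cnt_cs (P : ℂ → Prop) {T t r : ℝ} (hT : 3 ≤ T) (hr : r ≤ 1) (ht : t ∈ Set.Icc T (2 * T)) :
    (cnt P t r : ℝ) = cs P T r t := by
  rw [cnt_card P (U := T - 2) (V := 2 * T + 2) (by linarith) (by linarith [ht.1]) (by linarith [ht.2])]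
  unfold cs
  rw [← Finset.filter_filter, Finset.card_filter]
  push_cast
  rfl

theorem cs_meas (P : ℂ → Prop) (T r : ℝ) : Measurable (cs P T r) := by
  unfold cs
  refine Finset.measurable_sum _ fun s _ => ?_
  refine Measurable.ite ?_ measurable_const measurable_const
  exact measurableSet_le (by fun_prop) measurable_const

theorem cs_nonneg (P : ℂ → Prop) (T r t : ℝ) : 0 ≤ cs P T r t := by
  unfold cs
  exact Finset.sum_nonneg fun s _ => by split_ifs <;> norm_num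

theorem cs_bdd (P : ℂ → Prop) (T r : ℝ) : ∃ K : ℝ, ∀ t, |cs P T r t| ≤ K := by
  classical
  refine ⟨((H370.Zf riemannZeta (T - 2) (2 * T + 2)).filter P).card, fun t => ?_⟩
  rw [abs_of_nonneg (cs_nonneg P T r t)]
  unfold cs
  refine (Finset.sum_le_sum (g := fun _ => (1 : ℝ)) fun s _ => ?_).trans (by simp)
  split_ifs <;> norm_num

theorem cs_int (P : ℂ → Prop) (T r : ℝ) {g : ℝ → ℝ} (hg : Continuous g) (a b : ℝ) :
    IntegrableOn (fun t => cs P T r t * g t) (Set.Icc a b) := by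
  obtain ⟨K, hK⟩ := cs_bdd P T r
  have h1 : IntegrableOn g (Set.Icc a b) := hg.continuousOn.integrableOn_Icc
  refine Integrable.bdd_mul (c := K) h1 (cs_meas P T r).aestronglyMeasurable ?_
  exact Filter.Eventually.of_forall fun t => by rw [Real.norm_eq_abs]; exact hK t

/-- simple zeros on the line -/
def Ps (s : ℂ) : Prop := s.re = 1 / 2 ∧ analyticOrderNatAt riemannZeta s = 1

/-- zeros in the right half of the strip -/
def Pd (s : ℂ) : Prop := 1 / 2 ≤ s.re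

theorem Nsw_cnt {T t r : ℝ} (hT : 3 ≤ T) (hL : 1 ≤ Real.log T) (hr : r ≤ 1)
    (ht : t ∈ Set.Ioc (T + 2 * Real.log T) (2 * T - 2 * Real.log T)) : Nsw T r t = (cnt Ps t r : ℝ) := by
  classical
  rw [cnt_card Ps (U := T + 1) (V := 2 * T - 1) (by linarith) (by linarith [ht.1]) (by linarith [ht.2])]
  unfold Nsw ZT mz Ps
  congr 2
  ext s
  simp only [Finset.mem_filter]
  tauto

theorem Ndw_cnt {T t r : ℝ} (hT : 3 ≤ T) (hL : 1 ≤ Real.log T) (hr : r ≤ 1)
    (ht : t ∈ Set.Ioc (T + 2 * Real.log T) (2 * T - 2 * Real.log T)) : Ndw T r t = (cnt Pd t r : ℝ) := by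
  classical
  rw [cnt_card Pd (U := T + 1) (V := 2 * T - 1) (by linarith) (by linarith [ht.1]) (by linarith [ht.2])]
  unfold Ndw ZT
  rw [Finset.card_filter, Finset.card_filter]
  congr 1
  rw [← H370.sum_refl H370.good_zeta (by linarith : (1 : ℝ) ≤ T + 1) (fun s => if Pd s ∧ |s.im - t| ≤ r then 1 else 0)]
  refine Finset.sum_congr rfl fun s _ => ?_
  have h1 : (1 - (starRingEnd ℂ) s).re = 1 - s.re := by simp
  have h2 : (1 - (starRingEnd ℂ) s).im = s.im := by simp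
  unfold Pd
  rw [h1, h2]
  congr 1
  apply propext
  constructor
  · rintro ⟨a, b⟩; exact ⟨by linarith, b⟩
  · rintro ⟨a, b⟩; exact ⟨by linarith, b⟩

theorem mid_ind (T : ℝ) (h : T + 2 * Real.log T ≤ 2 * T - 2 * Real.log T) (g : ℝ → ℝ) {E : Set ℝ} (hE : MeasurableSet E) :
    mid T (fun t => E.indicator 1 t * g t) =
      ∫ t in Set.Ioc (T + 2 * Real.log T) (2 * T - 2 * Real.log T) ∩ E, g t := by
  unfold mid
  rw [intervalIntegral.integral_of_le h, ← setIntegral_indicator hE]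
  refine setIntegral_congr_fun measurableSet_Ioc fun t _ => ?_
  by_cases ht : t ∈ E <;> simp [ht]

/-- masses of a subset -/
theorem mass_E {T s W κ : ℝ} {g : ℝ → ℝ} (hg : Continuous g) (hg0 : ∀ t, 0 ≤ g t)
    (hL : 0 ≤ Real.log T) (hab : T + 2 * Real.log T ≤ 2 * T - 2 * Real.log T)
    (h1 : |(∫ t in Set.Icc T (2 * T), g t) - W| ≤ s * W) (h2 : |mid T g - W| ≤ s * W)
    {E : Set ℝ} (hE : MeasurableSet E) (hET : E ⊆ Set.Icc T (2 * T)) (hk : 0 ≤ κ) (hk1 : κ ≤ 1) (hs : 0 ≤ s * W)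
    (hκ : κ * ∫ t in Set.Icc T (2 * T), g t ≤ ∫ t in E, g t) :
    mid T (fun t => E.indicator 1 t * g t) ≤ ∫ t in E, g t ∧
    (∫ t in E, g t) ≤ mid T (fun t => E.indicator 1 t * g t) + 2 * (s * W) ∧
    (κ - 3 * s) * W ≤ mid T (fun t => E.indicator 1 t * g t) := by
  set J := Set.Ioc (T + 2 * Real.log T) (2 * T - 2 * Real.log T) with hJ
  have hJT : J ⊆ Set.Icc T (2 * T) := by
    intro t ht
    exact ⟨by linarith [ht.1], by linarith [ht.2]⟩
  have hgi : IntegrableOn g (Set.Icc T (2 * T)) := hg.continuousOn.integrableOn_Icc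
  have hgE : IntegrableOn g E := hgi.mono_set hET
  have h0 : ∀ S : Set ℝ, 0 ≤ᵐ[volume.restrict S] g := fun S => Filter.Eventually.of_forall hg0
  rw [mid_ind T hab g hE]
  have e1 : ∫ t in J ∩ E, g t ≤ ∫ t in E, g t :=
    setIntegral_mono_set hgE (h0 E) (LE.le.eventuallyLE Set.inter_subset_right)
  have e2 : ∫ t in E, g t = (∫ t in J ∩ E, g t) + ∫ t in E \ J, g t := by
    rw [Set.inter_comm]
    exact (integral_inter_add_sdiff measurableSet_Ioc hgE).symm
  have e3 : ∫ t in E \ J, g t ≤ ∫ t in Set.Icc T (2 * T) \ J, g t :=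
    setIntegral_mono_set (hgi.mono_set Set.sdiff_subset) (h0 _)
      (LE.le.eventuallyLE (Set.sdiff_subset_sdiff_left hET))
  have e4 : ∫ t in Set.Icc T (2 * T), g t = (∫ t in J, g t) + ∫ t in Set.Icc T (2 * T) \ J, g t := by
    have := (integral_inter_add_sdiff (s := Set.Icc T (2 * T)) (t := J) measurableSet_Ioc hgi).symm
    rwa [Set.inter_eq_right.2 hJT] at this
  have e5 : mid T g = ∫ t in J, g t := by
    unfold mid
    rw [intervalIntegral.integral_of_le hab]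
  rw [e5] at h2
  have a1 := abs_le.1 h1
  have a2 := abs_le.1 h2
  have hW1 : κ * (W - s * W) ≤ κ * ∫ t in Set.Icc T (2 * T), g t :=
    mul_le_mul_of_nonneg_left (by linarith) hk
  have hW2 : κ * (s * W) ≤ s * W := mul_le_of_le_one_left hs hk1
  refine ⟨e1, by linarith, ?_⟩
  nlinarith

theorem low_E {T r : ℝ} {g : ℝ → ℝ} (hg : Continuous g) (hg0 : ∀ t, 0 ≤ g t) (hT : 3 ≤ T) (hr : r ≤ 1)
    (hL : 1 ≤ Real.log T) (hab : T + 2 * Real.log T ≤ 2 * T - 2 * Real.log T)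
    {E : Set ℝ} (hE : MeasurableSet E) (hET : E ⊆ Set.Icc T (2 * T)) (P : ℂ → Prop) (m : ℝ → ℝ)
    (hm : ∀ t ∈ Set.Ioc (T + 2 * Real.log T) (2 * T - 2 * Real.log T), m t = (cnt P t r : ℝ)) :
    mid T (fun t => m t * (E.indicator 1 t * g t)) ≤ ∫ t in E, (cnt P t r : ℝ) * g t := by
  set J := Set.Ioc (T + 2 * Real.log T) (2 * T - 2 * Real.log T) with hJ
  have hJT : J ⊆ Set.Icc T (2 * T) := by
    intro t ht
    exact ⟨by linarith [ht.1], by linarith [ht.2]⟩
  have e1 : mid T (fun t => m t * (E.indicator 1 t * g t)) = ∫ t in J ∩ E, (cnt P t r : ℝ) * g t := by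
    unfold mid
    rw [intervalIntegral.integral_of_le hab, ← setIntegral_indicator hE]
    refine setIntegral_congr_fun measurableSet_Ioc fun t ht => ?_
    simp only [hm t ht]
    by_cases htE : t ∈ E <;> simp [htE]
  rw [e1]
  have hi : IntegrableOn (fun t => (cnt P t r : ℝ) * g t) E := by
    refine ((cs_int P T r hg T (2 * T)).mono_set hET).congr_fun (fun t ht => ?_) hE
    simp only [cnt_cs P hT hr (hET ht)]
  refine setIntegral_mono_set hi (Filter.Eventually.of_forall fun t => ?_)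
    (LE.le.eventuallyLE Set.inter_subset_right)
  exact mul_nonneg (Nat.cast_nonneg _) (hg0 t)

theorem arith {a ε h M M' W s X κ I : ℝ} (ha : a ≤ 2) (hε : 0 < ε) (hε1 : ε ≤ 1) (hh : 0 ≤ h) (hs1 : s ≤ ε ^ 2 / 64)
    (hW : 0 ≤ W) (hκ : ε ≤ κ) (hI : |I - W| ≤ s * W) (hM' : κ * I ≤ M') (hM0 : 0 ≤ M) (hMM : M ≤ M') (hMM2 : M' ≤ M + 2 * (s * W))
    (hX0 : 0 ≤ X) (hX : (a - ε / 4) * h * M ≤ X) : (a - ε / 2) * h * M' ≤ X := by
  have h1 := abs_le.1 hI
  have hs2 : s ≤ 1 / 2 := by nlinarith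
  have h2 : W / 2 ≤ I := by nlinarith
  have h3 : ε * (W / 2) ≤ M' := by
    have : ε * (W / 2) ≤ κ * I := mul_le_mul hκ h2 (by positivity) (by linarith)
    linarith
  have h4 : 2 * (s * W) ≤ ε / 8 * M' := by
    have h5 : s * W ≤ ε ^ 2 / 64 * W := mul_le_mul_of_nonneg_right hs1 hW
    nlinarith
  have hM'0 : 0 ≤ M' := by linarith
  rcases le_or_gt (a - ε / 4) 0 with h5 | h5
  · refine le_trans ?_ hX0
    have : (a - ε / 2) * h ≤ 0 := mul_nonpos_of_nonpos_of_nonneg (by linarith) hh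
    exact mul_nonpos_of_nonpos_of_nonneg this hM'0
  · have h6 : (1 - ε / 8) * M' ≤ M := by linarith
    have h7 : (a - ε / 4) * h * ((1 - ε / 8) * M') ≤ (a - ε / 4) * h * M := mul_le_mul_of_nonneg_left h6 (by positivity)
    refine le_trans ?_ (h7.trans hX)
    have h8 : (a - ε / 2) ≤ (a - ε / 4) * (1 - ε / 8) := by nlinarith
    have h9 := mul_le_mul_of_nonneg_right h8 (mul_nonneg hh hM'0)
    linarith

theorem dp_cont (N : ℕ) (b : ℕ → ℂ) : Continuous (dp N b) := by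
  unfold dp
  refine continuous_finsetSum _ fun n hn => ?_
  refine continuous_const.mul ?_
  have hn0 : (n : ℂ) ≠ 0 := by
    have := (Finset.mem_Icc.1 hn).1
    exact_mod_cast (by omega : n ≠ 0)
  exact Continuous.const_cpow (by fun_prop) (Or.inl hn0)

/-- the mass on `[T, 2T]` -/
theorem mass_full : ∀ ε : ℝ, 0 < ε → ∀ᶠ T : ℝ in atTop, ∀ N : ℕ, (N : ℝ) ≤ T ^ (1 / 40 : ℝ) → ∀ b : ℕ → ℂ,
    |(∫ t in Set.Icc T (2 * T), ‖dp N b t‖ ^ 2) - T * N2 N b| ≤ ε * (T * N2 N b) := by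
  obtain ⟨C₀, hC₀, hMV⟩ := Pool.Agent.Q222.UM.t_MV2
  intro ε hε
  have h1 : Tendsto (fun T : ℝ => C₀ * T ^ (1 / 40 : ℝ) * (1 + Real.log (T ^ (1 / 40 : ℝ))) / T) atTop (𝓝 0) := by
    have e2 : Tendsto (fun T : ℝ => Real.log T / T ^ (39 / 40 : ℝ)) atTop (𝓝 0) :=
      (isLittleO_log_rpow_atTop (by norm_num : (0 : ℝ) < 39 / 40)).tendsto_div_nhds_zero
    have e3 : Tendsto (fun T : ℝ => 1 / T ^ (39 / 40 : ℝ)) atTop (𝓝 0) := by
      refine (tendsto_rpow_atTop (by norm_num : (0 : ℝ) < 39 / 40)).inv_tendsto_atTop.congr fun T => ?_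
      rw [one_div]
      rfl
    have e4 : Tendsto (fun T : ℝ => C₀ * (1 / T ^ (39 / 40 : ℝ)) + C₀ / 40 * (Real.log T / T ^ (39 / 40 : ℝ))) atTop (𝓝 0) := by
      have := (e3.const_mul C₀).add (e2.const_mul (C₀ / 40))
      simpa using this
    refine e4.congr' ?_
    filter_upwards [eventually_gt_atTop (0 : ℝ)] with T hT
    have e5 : T = T ^ (1 / 40 : ℝ) * T ^ (39 / 40 : ℝ) := by
      rw [← Real.rpow_add hT]; norm_num
    have e6 : 0 < T ^ (1 / 40 : ℝ) := Real.rpow_pos_of_pos hT _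
    have e7 : 0 < T ^ (39 / 40 : ℝ) := Real.rpow_pos_of_pos hT _
    rw [Real.log_rpow hT]
    have e8 : C₀ * T ^ (1 / 40 : ℝ) * (1 + 1 / 40 * Real.log T) / T =
        C₀ * T ^ (1 / 40 : ℝ) * (1 + 1 / 40 * Real.log T) / (T ^ (1 / 40 : ℝ) * T ^ (39 / 40 : ℝ)) := by rw [← e5]
    rw [e8]
    field_simp
  filter_upwards [h1.eventually_lt_const hε, eventually_ge_atTop (1 : ℝ)] with T h hT N hN b
  have hT0 : 0 < T := by linarith
  have hN2 : 0 ≤ N2 N b := N2_nonneg N b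
  rcases Nat.eq_zero_or_pos N with hN0 | hN0
  · subst hN0
    have e1 : N2 0 b = 0 := by unfold N2; simp
    have e2 : ∀ t : ℝ, dp 0 b t = 0 := fun t => by unfold dp; simp
    rw [e1]
    simp [e2]
  · have h3 := hMV T (2 * T) (by linarith) N b hN0
    rw [intervalIntegral.integral_of_le (by linarith), ← integral_Icc_eq_integral_Ioc] at h3
    have h4 : (2 * T - T) * N2 N b = T * N2 N b := by ring
    rw [h4] at h3
    refine h3.trans ?_
    have hN1 : (1 : ℝ) ≤ N := by exact_mod_cast hN0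
    have h5 : C₀ * N * (1 + Real.log N) ≤ C₀ * T ^ (1 / 40 : ℝ) * (1 + Real.log (T ^ (1 / 40 : ℝ))) := by
      have hl : Real.log N ≤ Real.log (T ^ (1 / 40 : ℝ)) := Real.log_le_log (by linarith) hN
      have hl0 : 0 ≤ Real.log N := Real.log_nonneg hN1
      gcongr
    have h6 : C₀ * T ^ (1 / 40 : ℝ) * (1 + Real.log (T ^ (1 / 40 : ℝ))) ≤ ε * T := by
      rw [div_lt_iff₀ hT0] at h
      exact h.le
    calc C₀ * N * (1 + Real.log N) * N2 N b ≤ (ε * T) * N2 N b := mul_le_mul_of_nonneg_right (h5.trans h6) hN2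
      _ = _ := by ring

/-- the theorem for measurable subsets of `[T, 2T]` -/
theorem fin_all (ε : ℝ) (hε : 0 < ε) (hε1 : ε ≤ 1) : ∃ H₀ : ℝ, 1 ≤ H₀ ∧ ∀ H : ℝ, H₀ ≤ H → ∃ θ : ℝ, 0 < θ ∧
    ∀ᶠ T : ℝ in atTop, H / Real.log T ≤ 1 ∧ 3 ≤ T ∧ ∀ N : ℕ, (N : ℝ) ≤ T ^ θ → ∀ (b : ℕ → ℂ) (κ : ℝ), ε ≤ κ → κ ≤ 1 →
      ∀ E : Set ℝ, MeasurableSet E → E ⊆ Set.Icc T (2 * T) →
      κ * ∫ t in Set.Icc T (2 * T), ‖dp N b t‖ ^ 2 ≤ ∫ t in E, ‖dp N b t‖ ^ 2 →
      (2 - cst κ - ε / 2) * (H / Real.pi) * (∫ t in E, ‖dp N b t‖ ^ 2) ≤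
        ∫ t in E, (cnt Ps t (H / Real.log T) : ℝ) * ‖dp N b t‖ ^ 2 ∧
      ((3 - cst κ) / 2 - ε / 2) * (H / Real.pi) * (∫ t in E, ‖dp N b t‖ ^ 2) ≤
        ∫ t in E, (cnt Pd t (H / Real.log T) : ℝ) * ‖dp N b t‖ ^ 2 := by
  obtain ⟨δ, hδ, H₀, hH₀, hU⟩ := uniZ (ε / 4) (by positivity)
  refine ⟨H₀, hH₀, fun H hH => ?_⟩
  obtain ⟨θ, t1, t2, hU⟩ := hU H hH
  refine ⟨θ, t1, ?_⟩
  obtain ⟨s, hs⟩ : ∃ s, s = min (ε ^ 2 / 64) (δ / 3) := ⟨_, rfl⟩
  have hs0 : 0 < s := by rw [hs]; positivity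
  have hs1 : s ≤ ε ^ 2 / 64 := by rw [hs]; exact min_le_left _ _
  have hs2 : s ≤ δ / 3 := by rw [hs]; exact min_le_right _ _
  have hH0 : 0 < H := by linarith
  filter_upwards [hU, mass_full s hs0, mass_short Pool.Agent.Q222.UM.t_MV2 s hs0, eventually_ge_atTop (16 : ℝ),
    Real.tendsto_log_atTop.eventually_ge_atTop 1, Real.tendsto_log_atTop.eventually_ge_atTop H]
    with T hU hA hB hT16 hL1 hLH
  have hT1 : (1 : ℝ) ≤ T := by linarith
  have hr : H / Real.log T ≤ 1 := by rw [div_le_one (by linarith)]; exact hLH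
  have hL4 : 4 * Real.log T ≤ T := by
    have h5 := Real.log_le_sub_one_of_pos (show (0 : ℝ) < T / 16 by positivity)
    rw [Real.log_div (by positivity) (by norm_num)] at h5
    have h6 : Real.log 16 ≤ 3 := by
      have : Real.log 16 = 4 * Real.log 2 := by
        rw [show (16 : ℝ) = 2 ^ 4 by norm_num, Real.log_pow]; norm_num
      rw [this]; have := Real.log_two_lt_d9; linarith
    linarith
  have hab : T + 2 * Real.log T ≤ 2 * T - 2 * Real.log T := by linarith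
  refine ⟨hr, by linarith, fun N hN b κ hκ hκ1 E hE hET hm => ?_⟩
  have hN40 : (N : ℝ) ≤ T ^ (1 / 40 : ℝ) := hN.trans (Real.rpow_le_rpow_of_exponent_le hT1 t2)
  replace hA := hA N hN40 b
  replace hB := hB N hN40 b
  obtain ⟨W, hW⟩ : ∃ W, W = T * N2 N b := ⟨_, rfl⟩
  have hW0 : 0 ≤ W := by rw [hW]; exact mul_nonneg (by linarith) (N2_nonneg N b)
  rw [← hW] at hA hB
  have hκ0 : 0 < κ := by linarith
  have hgc : Continuous (fun t : ℝ => ‖dp N b t‖ ^ 2) := ((dp_cont N b).norm).pow 2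
  have hg0 : ∀ t : ℝ, 0 ≤ ‖dp N b t‖ ^ 2 := fun t => by positivity
  obtain ⟨m1, m2, m3⟩ := mass_E hgc hg0 (by linarith) hab hA hB hE hET hκ0.le hκ1 (mul_nonneg hs0.le hW0) hm
  have hmd : (κ - δ) * W ≤ mid T (fun t => E.indicator 1 t * ‖dp N b t‖ ^ 2) :=
    le_trans (mul_le_mul_of_nonneg_right (by linarith) hW0) m3
  rw [hW] at hmd
  have hM0 : 0 ≤ mid T (fun t => E.indicator 1 t * ‖dp N b t‖ ^ 2) := by
    rw [mid_ind T hab _ hE]
    exact integral_nonneg fun t => by positivity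
  obtain ⟨c1, c2, -⟩ := hU κ ⟨by linarith, hκ1⟩ N hN b (E.indicator 1) (measurable_one.indicator hE)
    (fun t => Set.indicator_nonneg (fun _ _ => zero_le_one) t)
    (fun t => Set.indicator_le_self' (f := (1 : ℝ → ℝ)) (fun _ _ => zero_le_one) t) hmd
  have hc0 := cst_nonneg κ hκ0
  have hh : 0 ≤ H / Real.pi := by positivity
  constructor
  · refine arith (a := 2 - cst κ) (by linarith) hε hε1 hh hs1 hW0 hκ hA hm hM0 m1 m2 ?_ (c1.trans ?_)
    · exact integral_nonneg fun t => by positivity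
    · exact low_E hgc hg0 (by linarith) hr hL1 hab hE hET Ps _ fun t ht => Nsw_cnt (by linarith) hL1 hr ht
  · refine arith (a := (3 - cst κ) / 2) (by linarith) hε hε1 hh hs1 hW0 hκ hA hm hM0 m1 m2 ?_ (c2.trans ?_)
    · exact integral_nonneg fun t => by positivity
    · exact low_E hgc hg0 (by linarith) hr hL1 hab hE hET Pd _ fun t ht => Ndw_cnt (by linarith) hL1 hr ht

/-- measurability of the sets of bad points -/
theorem bad_meas (P : ℂ → Prop) {T r A : ℝ} (hT : 3 ≤ T) (hr : r ≤ 1) :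
    MeasurableSet {t : ℝ | t ∈ Set.Icc T (2 * T) ∧ (cnt P t r : ℝ) < A} := by
  have : {t : ℝ | t ∈ Set.Icc T (2 * T) ∧ (cnt P t r : ℝ) < A} = Set.Icc T (2 * T) ∩ {t | cs P T r t < A} := by
    ext t
    simp only [Set.mem_ofPred_eq, Set.mem_inter_iff]
    constructor
    · rintro ⟨h1, h2⟩
      exact ⟨h1, by rw [← cnt_cs P hT hr h1]; exact h2⟩
    · rintro ⟨h1, h2⟩
      exact ⟨h1, by rw [cnt_cs P hT hr h1]; exact h2⟩
  rw [this]
  exact measurableSet_Icc.inter (measurableSet_lt (cs_meas P T r) measurable_const)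

/-- from means over sets to the size of the set of bad points -/
theorem bad_small (P : ℂ → Prop) {T r a ε h κ : ℝ} {g : ℝ → ℝ} (hg : Continuous g) (hg0 : ∀ t, 0 ≤ g t) (hT : 3 ≤ T) (hr : r ≤ 1)
    (hε : 0 < ε) (hh : 0 < h) (hκ : 0 ≤ κ)
    (H : ∀ E : Set ℝ, MeasurableSet E → E ⊆ Set.Icc T (2 * T) → κ * ∫ t in Set.Icc T (2 * T), g t ≤ ∫ t in E, g t →
      (a - ε / 2) * h * (∫ t in E, g t) ≤ ∫ t in E, (cnt P t r : ℝ) * g t) :
    ∫ t in {t : ℝ | t ∈ Set.Icc T (2 * T) ∧ (cnt P t r : ℝ) < (a - ε) * h}, g t ≤ κ * ∫ t in Set.Icc T (2 * T), g t := by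
  by_contra hcon
  push Not at hcon
  set E := {t : ℝ | t ∈ Set.Icc T (2 * T) ∧ (cnt P t r : ℝ) < (a - ε) * h} with hE
  have hEm : MeasurableSet E := bad_meas P hT hr
  have hET : E ⊆ Set.Icc T (2 * T) := fun t ht => ht.1
  have h1 := H E hEm hET hcon.le
  have hgi : IntegrableOn g E := (hg.continuousOn.integrableOn_Icc).mono_set hET
  have hi : IntegrableOn (fun t => (cnt P t r : ℝ) * g t) E := by
    refine ((cs_int P T r hg T (2 * T)).mono_set hET).congr_fun (fun t ht => ?_) hEm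
    simp only [cnt_cs P hT hr (hET ht)]
  have h2 : ∫ t in E, (cnt P t r : ℝ) * g t ≤ ∫ t in E, ((a - ε) * h) * g t := by
    refine setIntegral_mono_on hi (hgi.const_mul _) hEm fun t ht => ?_
    exact mul_le_mul_of_nonneg_right ht.2.le (hg0 t)
  rw [integral_const_mul] at h2
  have h3 : 0 ≤ κ * ∫ t in Set.Icc T (2 * T), g t := mul_nonneg hκ (integral_nonneg hg0)
  have h4 : 0 < ∫ t in E, g t := lt_of_le_of_lt h3 hcon
  have h5 : 0 < ε / 2 * h * ∫ t in E, g t := by positivity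
  nlinarith

open Classical in
/-- the integral of the counting function over a set and the number of zeros near the set -/
theorem near_bd (P : ℂ → Prop) {T r : ℝ} (hT : 3 ≤ T) (hr : r ≤ 1) (hr0 : 0 ≤ r) {E : Set ℝ} (hE : MeasurableSet E)
    (hET : E ⊆ Set.Icc T (2 * T)) : ∫ t in E, (cnt P t r : ℝ) ≤
      2 * r * (Set.ncard {s : ℂ | riemannZeta s = 0 ∧ 0 < s.re ∧ s.re < 1 ∧ P s ∧ ∃ t ∈ E, |s.im - t| ≤ r} : ℝ) := by
  have e1 : ∫ t in E, (cnt P t r : ℝ) = ∫ t in E, cs P T r t :=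
    setIntegral_congr_fun hE fun t ht => cnt_cs P hT hr (hET ht)
  have hvol : volume E ≠ ⊤ := ne_top_of_le_ne_top (by simp) (measure_mono hET)
  have hi : ∀ s : ℂ, Integrable (fun t : ℝ => (Set.Icc (s.im - r) (s.im + r)).indicator (fun _ => (1 : ℝ)) t) := fun s =>
    (integrable_indicator_iff measurableSet_Icc).2 (integrableOn_const (by simp))
  have e2 : ∀ (s : ℂ) (t : ℝ), (if |s.im - t| ≤ r then (1 : ℝ) else 0) =
      (Set.Icc (s.im - r) (s.im + r)).indicator (fun _ => (1 : ℝ)) t := by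
    intro s t
    unfold Set.indicator
    congr 1
    apply propext
    rw [abs_le, Set.mem_Icc]
    constructor
    · rintro ⟨a, b⟩; exact ⟨by linarith, by linarith⟩
    · rintro ⟨a, b⟩; exact ⟨by linarith, by linarith⟩
  have e3 : ∫ t in E, cs P T r t = ∑ s ∈ (H370.Zf riemannZeta (T - 2) (2 * T + 2)).filter P,
      ∫ t in E, (Set.Icc (s.im - r) (s.im + r)).indicator (fun _ => (1 : ℝ)) t := by
    unfold cs
    simp only [e2]
    exact integral_finsetSum _ fun s _ => (hi s).integrableOn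
  have e4 : ∀ s : ℂ, ∫ t in E, (Set.Icc (s.im - r) (s.im + r)).indicator (fun _ => (1 : ℝ)) t ≤
      if ∃ t ∈ E, |s.im - t| ≤ r then 2 * r else 0 := by
    intro s
    split_ifs with h
    · refine (setIntegral_le_integral (hi s) (Filter.Eventually.of_forall fun t =>
        Set.indicator_nonneg (fun _ _ => zero_le_one) t)).trans ?_
      rw [integral_indicator measurableSet_Icc]
      simp only [integral_const, smul_eq_mul, mul_one]
      rw [measureReal_restrict_apply_univ, Real.volume_real_Icc_of_le (by linarith)]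
      linarith
    · have : ∀ t ∈ E, (Set.Icc (s.im - r) (s.im + r)).indicator (fun _ => (1 : ℝ)) t = 0 := by
        intro t ht
        rw [← e2, if_neg]
        exact fun h1 => h ⟨t, ht, h1⟩
      rw [setIntegral_congr_fun hE this]
      simp
  have e5 : {s : ℂ | riemannZeta s = 0 ∧ 0 < s.re ∧ s.re < 1 ∧ P s ∧ ∃ t ∈ E, |s.im - t| ≤ r} =
      (((H370.Zf riemannZeta (T - 2) (2 * T + 2)).filter P).filter (fun s => ∃ t ∈ E, |s.im - t| ≤ r) : Finset ℂ) := by
    ext s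
    rw [Finset.coe_filter]
    simp only [Set.mem_ofPred_eq, Finset.mem_filter, H370.mem_Zf H370.good_zeta (show (1 : ℝ) ≤ T - 2 by linarith), H370.zset]
    constructor
    · rintro ⟨a1, a2, a3, a4, t, ht, a5⟩
      have h1 := abs_le.1 a5
      have h2 := hET ht
      exact ⟨⟨⟨a2, a3, by linarith [h2.1], by linarith [h2.2], a1⟩, a4⟩, t, ht, a5⟩
    · rintro ⟨⟨⟨a2, a3, -, -, a1⟩, a4⟩, a5⟩
      exact ⟨a1, a2, a3, a4, a5⟩
  rw [e1, e3, e5, Set.ncard_coe_finset]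
  refine (Finset.sum_le_sum fun s _ => e4 s).trans ?_
  rw [← Finset.sum_filter, Finset.sum_const, nsmul_eq_mul]
  linarith

/-- the trivial Dirichlet polynomial -/
theorem dp_one (t : ℝ) : dp 1 (fun _ => 1) t = 1 := by
  unfold dp
  simp

/-- zeros near a dense set -/
theorem near_all (ε : ℝ) (hε : 0 < ε) (hε1 : ε ≤ 1) : ∃ H₀ : ℝ, 1 ≤ H₀ ∧ ∀ H : ℝ, H₀ ≤ H →
    ∀ᶠ T : ℝ in atTop, ∀ κ : ℝ, ε ≤ κ → κ ≤ 1 → ∀ E : Set ℝ, MeasurableSet E → E ⊆ Set.Icc T (2 * T) →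
      κ * T ≤ volume.real E →
      (2 - cst κ - ε) * (Real.log T / (2 * Real.pi)) * volume.real E ≤
        (Set.ncard {s : ℂ | riemannZeta s = 0 ∧ 0 < s.re ∧ s.re < 1 ∧ Ps s ∧ ∃ t ∈ E, |s.im - t| ≤ H / Real.log T} : ℝ) ∧
      ((3 - cst κ) / 2 - ε) * (Real.log T / (2 * Real.pi)) * volume.real E ≤
        (Set.ncard {s : ℂ | riemannZeta s = 0 ∧ 0 < s.re ∧ s.re < 1 ∧ Pd s ∧ ∃ t ∈ E, |s.im - t| ≤ H / Real.log T} : ℝ) := by
  obtain ⟨H₀, hH₀, h⟩ := fin_all ε hε hε1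
  refine ⟨H₀, hH₀, fun H hH => ?_⟩
  obtain ⟨θ, hθ, h⟩ := h H hH
  have hH0 : 0 < H := by linarith
  have hpi := Real.pi_pos
  filter_upwards [h, eventually_ge_atTop (3 : ℝ), Real.tendsto_log_atTop.eventually_ge_atTop 1] with T h hT hL κ hκ hκ1 E hE hET hv
  obtain ⟨hr, -, h⟩ := h
  have hL0 : 0 < Real.log T := by linarith
  have h1 := h 1 (by push_cast; exact Real.one_le_rpow (by linarith) hθ.le) (fun _ => 1) κ hκ hκ1 E hE hET
  simp only [dp_one, norm_one, one_pow, mul_one, integral_const, smul_eq_mul, measureReal_restrict_apply_univ] at h1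
  rw [Real.volume_real_Icc_of_le (by linarith), show 2 * T - T = T by ring] at h1
  obtain ⟨g1, g2⟩ := h1 hv
  have hr0 : 0 ≤ H / Real.log T := by positivity
  have hvE : 0 ≤ volume.real E := measureReal_nonneg
  have conv : ∀ (a X : ℝ) (n : ℝ), (a - ε / 2) * (H / Real.pi) * volume.real E ≤ X → X ≤ 2 * (H / Real.log T) * n →
      (a - ε) * (Real.log T / (2 * Real.pi)) * volume.real E ≤ n := by
    intro a X n hX1 hX2
    have h3 : (a - ε) * (H / Real.pi) * volume.real E ≤ 2 * (H / Real.log T) * n := by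
      refine le_trans ?_ (hX1.trans hX2)
      exact mul_le_mul_of_nonneg_right (mul_le_mul_of_nonneg_right (by linarith) (by positivity)) hvE
    have h4 : (a - ε) * (Real.log T / (2 * Real.pi)) * volume.real E =
        ((a - ε) * (H / Real.pi) * volume.real E) * (Real.log T / (2 * H)) := by field_simp
    have h5 : n = (2 * (H / Real.log T) * n) * (Real.log T / (2 * H)) := by field_simp
    rw [h4, h5]
    exact mul_le_mul_of_nonneg_right h3 (by positivity)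
  exact ⟨conv _ _ _ g1 (near_bd Ps hT hr hr0 hE hET), conv _ _ _ g2 (near_bd Pd hT hr hr0 hE hET)⟩

end Pool.Agent.U85.Zd
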