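import Pool.Agent.H385R2.Win
import Pool.Agent.H295R2.SI.Defs

/-!
The windows `cos (γ x)`, `0 < γ < π`, in the form needed for the local trace inequality.
-/

open Complex MeasureTheory

set_option autoImplicit false

namespace Pool.Agent.U85.Zd

open H385

theorem win (γ : ℝ) (h0 : 0 < γ) (hπ : γ < Real.pi) : H295SI.Win (gw γ) := by
  refine ⟨WinAux.cont γ, fun x h1 h2 => gw_nonneg γ h0 hπ x h1 h2, ?_, ?_⟩
  · intro x
    unfold gw
    rw [mul_neg, Real.cos_neg]
  · have h := kapw_zero γ h0 hπ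
    unfold kapw at h
    simp only [mul_zero, zero_mul, Complex.exp_zero, mul_one] at h
    rw [intervalIntegral.integral_ofReal] at h
    exact_mod_cast h

theorem conv (γ : ℝ) (h0 : 0 < γ) (hπ : γ < Real.pi) : H295SI.Conv (Rw γ) := by
  obtain ⟨K, hK, hl⟩ := Rw_lip γ h0 hπ
  refine ⟨Rw_nonneg γ h0 hπ, Rw_antitone γ h0 hπ, ⟨K, hK, hl⟩, Rw_even γ, ?_⟩
  intro α hα
  unfold Rw
  rw [if_neg]
  rw [abs_of_pos (by linarith)]
  linarith

theorem ksq (γ : ℝ) (h0 : 0 < γ) (hπ : γ < Real.pi) : H295SI.KSq (gw γ) (Rw γ) := by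
  intro z
  have h := kapw_sq γ h0 hπ z
  unfold kapw at h
  unfold H295SI.kapG
  exact h

end Pool.Agent.U85.Zd
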