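import Pool.Agent.Q97.UM.Wc

set_option autoImplicit false

/-!
The local trace inequality integrated against `ω V`, `V` continuous and `ω` an arbitrary measurable
function between `0` and `1`.
-/

namespace Pool.Agent.U85.Zd

open Filter Topology MeasureTheory Complex
open scoped ComplexConjugate
open Pool.Agent.Q97.UM

/-- `g t * (ω t * V t)` is integrable on intervals -/
lemma ii_om {g ω V : ℝ → ℝ} {B : ℝ} (hg : Measurable g) (hb : ∀ t, |g t| ≤ B) (hω : Measurable ω)
    (hω0 : ∀ t, 0 ≤ ω t) (hω1 : ∀ t, ω t ≤ 1) (hV : Continuous V) (x y : ℝ) :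
    IntervalIntegrable (fun t => g t * (ω t * V t)) volume x y := by
  have h := ii_mul (g := fun t => g t * ω t) (V := V) (B := B) (hg.mul hω) (fun t => by
    have h1 : |g t| * |ω t| ≤ |g t| * 1 :=
      mul_le_mul_of_nonneg_left (by rw [abs_of_nonneg (hω0 t)]; exact hω1 t) (abs_nonneg _)
    have e : |g t * ω t| = |g t| * |ω t| := abs_mul _ _
    rw [e]
    linarith [hb t]) hV x y
  refine h.congr fun t _ => ?_
  exact mul_assoc _ _ _

lemma par_c {F : ℝ → ℝ → ℝ} (hF : Continuous fun p : ℝ × ℝ => F p.1 p.2) (c d : ℝ) :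
    Continuous fun t => ∫ α in c..d, F α t := by
  refine intervalIntegral.continuous_parametric_intervalIntegral_of_continuous' (f := fun t α => F α t) ?_ c d
  exact hF.comp (continuous_snd.prodMk continuous_fst)

lemma swap_c {F : ℝ → ℝ → ℝ} (hF : Continuous fun p : ℝ × ℝ => F p.1 p.2) (x y c d : ℝ) :
    ∫ t in x..y, ∫ α in c..d, F α t = ∫ α in c..d, ∫ t in x..y, F α t := by
  rw [intervalIntegral_intervalIntegral_swap (F := fun t α => F α t)]
  have h2 : Continuous (Function.uncurry fun (t α : ℝ) => F α t) :=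
    hF.comp (continuous_snd.prodMk continuous_fst)
  exact (h2.continuousOn.integrableOn_compact (isCompact_uIcc.prod isCompact_uIcc)).mono_set
    (Set.prod_mono Set.uIoc_subset_uIcc Set.uIoc_subset_uIcc)

/-- the integrated inequality -/
lemma core_om {δ H C : ℝ} {K : ℕ} {w : ℝ → ℝ} (h : OmW δ H C K w) (hδ : 0 < δ) (hH : 1 ≤ H) {R V ω q : ℝ → ℝ}
    (hR : Continuous R) (hR0 : ∀ x, 0 ≤ R x) (hV : Continuous V) (hV0 : ∀ t, 0 ≤ V t) (hω : Measurable ω)
    (hω0 : ∀ t, 0 ≤ ω t) (hω1 : ∀ t, ω t ≤ 1) (hq : Continuous q) {T lam x y a₀ Q : ℝ} (hxy : x ≤ y)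
    (ha0 : 0 ≤ a₀) (ha1 : a₀ ≤ 1)
    (hdet : ∀ t : ℝ, x ≤ t → t ≤ y →
      2 * Nw T (H / Real.log T) t - Nsw T (H / Real.log T) t ≤
        2 * (∫ α in (0 : ℝ)..1, R α * ‖Zt w T (lam * Real.log T * α) t‖ ^ 2) + 100 * C ^ 2 * ErrS δ H K T t ∧
      3 * Nw T (H / Real.log T) t - 2 * Ndw T (H / Real.log T) t ≤
        2 * (∫ α in (0 : ℝ)..1, R α * ‖Zt w T (lam * Real.log T * α) t‖ ^ 2) + 100 * C ^ 2 * ErrS δ H K T t ∧
      |Nw T (H / Real.log T) t - (Zt w T 0 t).re| ≤ 100 * C ^ 2 * ErrS δ H K T t) :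
    2 * (∫ t in x..y, Nw T (H / Real.log T) t * (ω t * V t)) -
        ∫ t in x..y, Nsw T (H / Real.log T) t * (ω t * V t) ≤
        2 * (∫ α in (0 : ℝ)..a₀, R α * q α ^ 2) * (∫ t in x..y, ω t * V t) +
        (2 * (∫ α in (0 : ℝ)..a₀, R α * ∫ t in x..y, |‖Zt w T (lam * Real.log T * α) t‖ ^ 2 - q α ^ 2| * V t) +
          2 * (∫ α in a₀..1, R α * ∫ t in x..y, ‖Zt w T (lam * Real.log T * α) t‖ ^ 2 * V t)) +
          100 * C ^ 2 * ∫ t in x..y, ErrS δ H K T t * V t ∧
    3 * (∫ t in x..y, Nw T (H / Real.log T) t * (ω t * V t)) -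
        2 * ∫ t in x..y, Ndw T (H / Real.log T) t * (ω t * V t) ≤
        2 * (∫ α in (0 : ℝ)..a₀, R α * q α ^ 2) * (∫ t in x..y, ω t * V t) +
        (2 * (∫ α in (0 : ℝ)..a₀, R α * ∫ t in x..y, |‖Zt w T (lam * Real.log T * α) t‖ ^ 2 - q α ^ 2| * V t) +
          2 * (∫ α in a₀..1, R α * ∫ t in x..y, ‖Zt w T (lam * Real.log T * α) t‖ ^ 2 * V t)) +
          100 * C ^ 2 * ∫ t in x..y, ErrS δ H K T t * V t ∧
    |(∫ t in x..y, Nw T (H / Real.log T) t * (ω t * V t)) - Q * ∫ t in x..y, ω t * V t| ≤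
      (∫ t in x..y, |(Zt w T 0 t).re - Q| * V t) + 100 * C ^ 2 * ∫ t in x..y, ErrS δ H K T t * V t := by
  set r := H / Real.log T with hr
  obtain ⟨mN, B1, bN⟩ := Nw_meas T r
  obtain ⟨mS, B2, bS⟩ := Nsw_meas T r
  obtain ⟨mD, B3, bD⟩ := Ndw_meas T r
  obtain ⟨mE, ⟨B4, bE⟩, eE⟩ := ErrS_meas (δ := δ) hH K T
  have iN := ii_om mN bN hω hω0 hω1 hV x y
  have iS := ii_om mS bS hω hω0 hω1 hV x y
  have iD := ii_om mD bD hω hω0 hω1 hV x y
  have iE := ii_mul mE bE hV x y
  have iω : IntervalIntegrable (fun t => ω t * V t) volume x y :=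
    ii_mul hω (fun t => by rw [abs_of_nonneg (hω0 t)]; exact hω1 t) hV x y
  have hZ0 : Continuous (fun t : ℝ => Zt w T 0 t) := by
    have h1 := (Zt_cont h hδ T 0).comp (continuous_const.prodMk continuous_id : Continuous fun t : ℝ => ((0 : ℝ), t))
    have e : (fun t : ℝ => Zt w T 0 t) = (fun p : ℝ × ℝ => Zt w T (0 * p.1) p.2) ∘ (fun t : ℝ => ((0 : ℝ), t)) := by
      funext t
      simp
    rw [e]
    exact h1
  have hcZ := Zt_cont h hδ T (lam * Real.log T)
  have hc2 : Continuous fun p : ℝ × ℝ => ‖Zt w T (lam * Real.log T * p.1) p.2‖ ^ 2 := hcZ.norm.pow 2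
  have hqp : Continuous fun p : ℝ × ℝ => q p.1 := hq.comp continuous_fst
  have hRp : Continuous fun p : ℝ × ℝ => R p.1 := hR.comp continuous_fst
  have hF1 : Continuous fun p : ℝ × ℝ => R p.1 * |‖Zt w T (lam * Real.log T * p.1) p.2‖ ^ 2 - q p.1 ^ 2| :=
    hRp.mul ((hc2.sub (hqp.pow 2)).abs)
  have hF2 : Continuous fun p : ℝ × ℝ => R p.1 * ‖Zt w T (lam * Real.log T * p.1) p.2‖ ^ 2 := hRp.mul hc2
  set G : ℝ → ℝ := fun t => 2 * (∫ α in (0 : ℝ)..a₀, R α * |‖Zt w T (lam * Real.log T * α) t‖ ^ 2 - q α ^ 2|) +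
    2 * ∫ α in a₀..1, R α * ‖Zt w T (lam * Real.log T * α) t‖ ^ 2 with hG
  have hGc : Continuous G := by
    refine (continuous_const.mul ?_).add (continuous_const.mul ?_)
    · exact par_c (F := fun α t => R α * |‖Zt w T (lam * Real.log T * α) t‖ ^ 2 - q α ^ 2|) hF1 _ _
    · exact par_c (F := fun α t => R α * ‖Zt w T (lam * Real.log T * α) t‖ ^ 2) hF2 _ _
  have hG0 : ∀ t, 0 ≤ G t := by
    intro t
    have h1 : 0 ≤ ∫ α in (0 : ℝ)..a₀, R α * |‖Zt w T (lam * Real.log T * α) t‖ ^ 2 - q α ^ 2| :=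
      intervalIntegral.integral_nonneg ha0 fun α _ => mul_nonneg (hR0 α) (abs_nonneg _)
    have h2 : 0 ≤ ∫ α in a₀..1, R α * ‖Zt w T (lam * Real.log T * α) t‖ ^ 2 :=
      intervalIntegral.integral_nonneg ha1 fun α _ => mul_nonneg (hR0 α) (by positivity)
    rw [hG]
    simp only
    linarith
  set cq : ℝ := ∫ α in (0 : ℝ)..a₀, R α * q α ^ 2 with hcq
  have hcq0 : 0 ≤ cq := intervalIntegral.integral_nonneg ha0 fun α _ => mul_nonneg (hR0 α) (sq_nonneg _)
  have hpt : ∀ t, 2 * (∫ α in (0 : ℝ)..1, R α * ‖Zt w T (lam * Real.log T * α) t‖ ^ 2) ≤ 2 * cq + G t := by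
    intro t
    have c1 : Continuous fun α : ℝ => R α * ‖Zt w T (lam * Real.log T * α) t‖ ^ 2 :=
      hF2.comp (continuous_id.prodMk continuous_const : Continuous fun α : ℝ => (α, t))
    have c2 : Continuous fun α : ℝ => R α * |‖Zt w T (lam * Real.log T * α) t‖ ^ 2 - q α ^ 2| :=
      hF1.comp (continuous_id.prodMk continuous_const : Continuous fun α : ℝ => (α, t))
    have c3 : Continuous fun α : ℝ => R α * q α ^ 2 := hR.mul (hq.pow 2)
    have h1 : (∫ α in (0 : ℝ)..a₀, R α * ‖Zt w T (lam * Real.log T * α) t‖ ^ 2) ≤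
        cq + ∫ α in (0 : ℝ)..a₀, R α * |‖Zt w T (lam * Real.log T * α) t‖ ^ 2 - q α ^ 2| := by
      rw [hcq, ← intervalIntegral.integral_add (c3.intervalIntegrable _ _) (c2.intervalIntegrable _ _)]
      refine intervalIntegral.integral_mono_on ha0 (c1.intervalIntegrable _ _)
        ((c3.add c2).intervalIntegrable _ _) fun α _ => ?_
      rw [← mul_add]
      refine mul_le_mul_of_nonneg_left ?_ (hR0 α)
      have := le_abs_self (‖Zt w T (lam * Real.log T * α) t‖ ^ 2 - q α ^ 2)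
      linarith
    rw [← intervalIntegral.integral_add_adjacent_intervals (c1.intervalIntegrable 0 a₀)
      (c1.intervalIntegrable a₀ 1), hG]
    simp only
    linarith
  have hGV : ∫ t in x..y, G t * V t =
      2 * (∫ α in (0 : ℝ)..a₀, R α * ∫ t in x..y, |‖Zt w T (lam * Real.log T * α) t‖ ^ 2 - q α ^ 2| * V t) +
          2 * (∫ α in a₀..1, R α * ∫ t in x..y, ‖Zt w T (lam * Real.log T * α) t‖ ^ 2 * V t) := by
    have s1 := swap_c (F := fun α t => R α * |‖Zt w T (lam * Real.log T * α) t‖ ^ 2 - q α ^ 2| * V t)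
      (hF1.mul (hV.comp continuous_snd)) x y 0 a₀
    have s2 := swap_c (F := fun α t => R α * ‖Zt w T (lam * Real.log T * α) t‖ ^ 2 * V t)
      (hF2.mul (hV.comp continuous_snd)) x y a₀ 1
    have k1 : Continuous fun t : ℝ => ∫ α in (0 : ℝ)..a₀, R α * |‖Zt w T (lam * Real.log T * α) t‖ ^ 2 - q α ^ 2| * V t :=
      par_c (F := fun α t => R α * |‖Zt w T (lam * Real.log T * α) t‖ ^ 2 - q α ^ 2| * V t)
        (hF1.mul (hV.comp continuous_snd)) _ _
    have k2 : Continuous fun t : ℝ => ∫ α in a₀..1, R α * ‖Zt w T (lam * Real.log T * α) t‖ ^ 2 * V t :=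
      par_c (F := fun α t => R α * ‖Zt w T (lam * Real.log T * α) t‖ ^ 2 * V t)
        (hF2.mul (hV.comp continuous_snd)) _ _
    have e1 : ∀ t, G t * V t = 2 * (∫ α in (0 : ℝ)..a₀, R α * |‖Zt w T (lam * Real.log T * α) t‖ ^ 2 - q α ^ 2| * V t) +
        2 * ∫ α in a₀..1, R α * ‖Zt w T (lam * Real.log T * α) t‖ ^ 2 * V t := by
      intro t
      rw [intervalIntegral.integral_mul_const, intervalIntegral.integral_mul_const, hG]
      ring
    simp only [e1]
    rw [intervalIntegral.integral_add ((k1.const_mul 2).intervalIntegrable _ _)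
      ((k2.const_mul 2).intervalIntegrable _ _), intervalIntegral.integral_const_mul,
      intervalIntegral.integral_const_mul, s1, s2]
    congr 2
    · refine intervalIntegral.integral_congr fun α _ => ?_
      simp only [mul_assoc]
      exact intervalIntegral.integral_const_mul _ _
    · refine intervalIntegral.integral_congr fun α _ => ?_
      simp only [mul_assoc]
      exact intervalIntegral.integral_const_mul _ _
  have iG : IntervalIntegrable (fun t => G t * V t) volume x y := (hGc.mul hV).intervalIntegrable _ _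
  have gen : ∀ (f : ℝ → ℝ), IntervalIntegrable f volume x y →
      (∀ t, x ≤ t → t ≤ y → f t ≤ ((2 * ∫ α in (0 : ℝ)..1, R α * ‖Zt w T (lam * Real.log T * α) t‖ ^ 2) +
        100 * C ^ 2 * ErrS δ H K T t) * (ω t * V t)) →
      ∫ t in x..y, f t ≤ 2 * cq * (∫ t in x..y, ω t * V t) + (∫ t in x..y, G t * V t) +
          100 * C ^ 2 * ∫ t in x..y, ErrS δ H K T t * V t := by
    intro f hf hle
    have h1 : ∫ t in x..y, f t ≤ ∫ t in x..y, (2 * cq * (ω t * V t) + G t * V t +
        100 * C ^ 2 * (ErrS δ H K T t * V t)) := by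
      refine intervalIntegral.integral_mono_on hxy hf (((iω.const_mul _).add iG).add (iE.const_mul _)) fun t ht => ?_
      refine (hle t ht.1 ht.2).trans ?_
      have p1 : 0 ≤ ω t * V t := mul_nonneg (hω0 t) (hV0 t)
      have p2 : ω t * V t ≤ V t := mul_le_of_le_one_left (hV0 t) (hω1 t)
      have p3 := mul_le_mul_of_nonneg_right (hpt t) p1
      have p4 := mul_le_mul_of_nonneg_left p2 (hG0 t)
      have p5 : 0 ≤ ErrS δ H K T t := eE t
      have p6 : 100 * C ^ 2 * ErrS δ H K T t * (ω t * V t) ≤ 100 * C ^ 2 * ErrS δ H K T t * V t :=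
        mul_le_mul_of_nonneg_left p2 (by positivity)
      calc _ = (2 * ∫ α in (0 : ℝ)..1, R α * ‖Zt w T (lam * Real.log T * α) t‖ ^ 2) * (ω t * V t) +
          100 * C ^ 2 * ErrS δ H K T t * (ω t * V t) := by ring
        _ ≤ (2 * cq + G t) * (ω t * V t) + 100 * C ^ 2 * ErrS δ H K T t * V t := add_le_add p3 p6
        _ = 2 * cq * (ω t * V t) + G t * (ω t * V t) + 100 * C ^ 2 * ErrS δ H K T t * V t := by ring
        _ ≤ 2 * cq * (ω t * V t) + G t * V t + 100 * C ^ 2 * ErrS δ H K T t * V t := by linarith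
        _ = _ := by ring
    rw [intervalIntegral.integral_add ((iω.const_mul _).add iG) (iE.const_mul _),
      intervalIntegral.integral_add (iω.const_mul _) iG, intervalIntegral.integral_const_mul,
      intervalIntegral.integral_const_mul] at h1
    exact h1
  rw [← hGV]
  refine ⟨?_, ?_, ?_⟩
  · have h1 := gen (fun t => 2 * (Nw T r t * (ω t * V t)) - Nsw T r t * (ω t * V t)) ((iN.const_mul 2).sub iS) (fun t h1 h2 => by
      have h3 := mul_le_mul_of_nonneg_right (hdet t h1 h2).1 (mul_nonneg (hω0 t) (hV0 t))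
      linarith)
    rw [intervalIntegral.integral_sub (iN.const_mul 2) iS, intervalIntegral.integral_const_mul] at h1
    exact h1
  · have h1 := gen (fun t => 3 * (Nw T r t * (ω t * V t)) - 2 * (Ndw T r t * (ω t * V t))) ((iN.const_mul 3).sub (iD.const_mul 2))
      (fun t h1 h2 => by
      have h3 := mul_le_mul_of_nonneg_right (hdet t h1 h2).2.1 (mul_nonneg (hω0 t) (hV0 t))
      linarith)
    rw [intervalIntegral.integral_sub (iN.const_mul 3) (iD.const_mul 2), intervalIntegral.integral_const_mul,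
      intervalIntegral.integral_const_mul] at h1
    exact h1
  · have iL : IntervalIntegrable (fun t => |(Zt w T 0 t).re - Q| * V t) volume x y :=
      ((((Complex.continuous_re.comp hZ0).sub continuous_const).abs).mul hV).intervalIntegrable _ _
    rw [← intervalIntegral.integral_const_mul, ← intervalIntegral.integral_sub iN (iω.const_mul Q)]
    refine (intervalIntegral.abs_integral_le_integral_abs hxy).trans ?_
    rw [← intervalIntegral.integral_const_mul, ← intervalIntegral.integral_add iL (iE.const_mul _)]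
    refine intervalIntegral.integral_mono_on hxy ((iN.sub (iω.const_mul Q)).abs) (iL.add (iE.const_mul _)) fun t ht => ?_
    have h3 := (hdet t ht.1 ht.2).2.2
    have p1 : 0 ≤ ω t * V t := mul_nonneg (hω0 t) (hV0 t)
    have p2 : ω t * V t ≤ V t := mul_le_of_le_one_left (hV0 t) (hω1 t)
    have e : Nw T r t * (ω t * V t) - Q * (ω t * V t) = (Nw T r t - Q) * (ω t * V t) := by ring
    rw [e, abs_mul, abs_of_nonneg p1]
    have h4 : |Nw T r t - Q| ≤ 100 * C ^ 2 * ErrS δ H K T t + |(Zt w T 0 t).re - Q| := by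
      have := abs_add_le (Nw T r t - (Zt w T 0 t).re) ((Zt w T 0 t).re - Q)
      rw [sub_add_sub_cancel] at this
      linarith
    calc |Nw T r t - Q| * (ω t * V t) ≤ |Nw T r t - Q| * V t := mul_le_mul_of_nonneg_left p2 (abs_nonneg _)
      _ ≤ (100 * C ^ 2 * ErrS δ H K T t + |(Zt w T 0 t).re - Q|) * V t := mul_le_mul_of_nonneg_right h4 (hV0 t)
      _ = _ := by ring

end Pool.Agent.U85.Zd
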