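import Pool.Agent.U85.Zd.Fz
import Pool.Agent.U85.Chi.Num

set_option autoImplicit false

/-!
The final form for a property `P` of the zeros and a share `a κ`.
-/

namespace Pool.Agent.U85.Zd

open Filter Topology MeasureTheory Complex
open Pool.Agent.Q97.UM Pool.Agent.U85.Chi

/-- the mass of a polynomial on a set of heights -/
noncomputable def ms (N : ℕ) (b : ℕ → ℂ) (E : Set ℝ) : ℝ := ∫ t in E, ‖dp N b t‖ ^ 2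

/-- the final form -/
def FF (P : ℂ → Prop) (a : ℝ → ℝ) (ε : ℝ) : Prop :=
  ∃ H₀ : ℝ, 1 ≤ H₀ ∧ ∀ H : ℝ, H₀ ≤ H → ∃ θ T₀ : ℝ, 0 < θ ∧ 1 ≤ T₀ ∧ ∀ T : ℝ, T₀ ≤ T → ∀ κ : ℝ, ε ≤ κ → κ ≤ 1 →
    (∀ N : ℕ, (N : ℝ) ≤ T ^ θ → ∀ b : ℕ → ℂ,
      (∀ E : Set ℝ, MeasurableSet E → E ⊆ Set.Icc T (2 * T) → κ * ms N b (Set.Icc T (2 * T)) ≤ ms N b E →
        (a κ - ε) * (H / Real.pi) * ms N b E ≤ ∫ t in E, (cnt P t (H / Real.log T) : ℝ) * ‖dp N b t‖ ^ 2) ∧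
      ms N b {t : ℝ | t ∈ Set.Icc T (2 * T) ∧ (cnt P t (H / Real.log T) : ℝ) < (a κ - ε) * (H / Real.pi)} ≤
        κ * ms N b (Set.Icc T (2 * T))) ∧
    ∀ E : Set ℝ, MeasurableSet E → E ⊆ Set.Icc T (2 * T) → κ * T ≤ volume.real E →
      (a κ - ε) * (Real.log T / (2 * Real.pi)) * volume.real E ≤
        (Set.ncard {s : ℂ | riemannZeta s = 0 ∧ 0 < s.re ∧ s.re < 1 ∧ P s ∧ ∃ t ∈ E, |s.im - t| ≤ H / Real.log T} : ℝ)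

theorem final_P (P : ℂ → Prop) (a : ℝ → ℝ) (ε : ℝ) (hε : 0 < ε)
    (h1 : ∃ H₀ : ℝ, 1 ≤ H₀ ∧ ∀ H : ℝ, H₀ ≤ H → ∃ θ : ℝ, 0 < θ ∧
      ∀ᶠ T : ℝ in atTop, H / Real.log T ≤ 1 ∧ 3 ≤ T ∧ ∀ N : ℕ, (N : ℝ) ≤ T ^ θ → ∀ (b : ℕ → ℂ) (κ : ℝ), ε ≤ κ → κ ≤ 1 →
        ∀ E : Set ℝ, MeasurableSet E → E ⊆ Set.Icc T (2 * T) →
        κ * ∫ t in Set.Icc T (2 * T), ‖dp N b t‖ ^ 2 ≤ ∫ t in E, ‖dp N b t‖ ^ 2 →
        (a κ - ε / 2) * (H / Real.pi) * (∫ t in E, ‖dp N b t‖ ^ 2) ≤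
          ∫ t in E, (cnt P t (H / Real.log T) : ℝ) * ‖dp N b t‖ ^ 2)
    (h2 : ∃ H₀ : ℝ, 1 ≤ H₀ ∧ ∀ H : ℝ, H₀ ≤ H →
      ∀ᶠ T : ℝ in atTop, ∀ κ : ℝ, ε ≤ κ → κ ≤ 1 → ∀ E : Set ℝ, MeasurableSet E → E ⊆ Set.Icc T (2 * T) →
        κ * T ≤ volume.real E →
        (a κ - ε) * (Real.log T / (2 * Real.pi)) * volume.real E ≤
          (Set.ncard {s : ℂ | riemannZeta s = 0 ∧ 0 < s.re ∧ s.re < 1 ∧ P s ∧ ∃ t ∈ E, |s.im - t| ≤ H / Real.log T} : ℝ)) :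
    FF P a ε := by
  obtain ⟨H₁, hH₁, h1⟩ := h1
  obtain ⟨H₂, hH₂, h2⟩ := h2
  refine ⟨max H₁ H₂, le_max_of_le_left hH₁, fun H hH => ?_⟩
  obtain ⟨θ, hθ, h1⟩ := h1 H ((le_max_left _ _).trans hH)
  have h2 := h2 H ((le_max_right _ _).trans hH)
  have hH0 : 0 < H := by linarith [(le_max_left H₁ H₂).trans hH]
  obtain ⟨T₀, hT₀⟩ := Filter.eventually_atTop.1 (h1.and h2)
  refine ⟨θ, max T₀ 1, hθ, le_max_right _ _, fun T hT κ hκ hκ1 => ?_⟩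
  obtain ⟨⟨hr, hT3, a1⟩, a2⟩ := hT₀ T ((le_max_left _ _).trans hT)
  refine ⟨fun N hN b => ?_, fun E hE hET hv => a2 κ hκ hκ1 E hE hET hv⟩
  have hgc : Continuous (fun t : ℝ => ‖dp N b t‖ ^ 2) := ((dp_cont N b).norm).pow 2
  have hg0 : ∀ t : ℝ, 0 ≤ ‖dp N b t‖ ^ 2 := fun t => by positivity
  have hh : 0 < H / Real.pi := div_pos hH0 Real.pi_pos
  refine ⟨fun E hE hET hm => ?_, ?_⟩
  · refine le_trans ?_ (a1 N hN b κ hκ hκ1 E hE hET hm)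
    have hM : 0 ≤ ms N b E := integral_nonneg fun t => by positivity
    exact mul_le_mul_of_nonneg_right (mul_le_mul_of_nonneg_right (by linarith) hh.le) hM
  · exact bad_small P hgc hg0 hT3 hr hε hh (by linarith) fun E hE hET hm => a1 N hN b κ hκ hκ1 E hE hET hm

theorem final_s (ε : ℝ) (hε : 0 < ε) (hε1 : ε ≤ 1) : FF Ps (fun κ => 2 - cst κ) ε := by
  refine final_P Ps _ ε hε ?_ ?_
  · obtain ⟨H₀, hH₀, h⟩ := fin_all ε hε hε1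
    refine ⟨H₀, hH₀, fun H hH => ?_⟩
    obtain ⟨θ, hθ, h⟩ := h H hH
    refine ⟨θ, hθ, ?_⟩
    filter_upwards [h] with T h
    exact ⟨h.1, h.2.1, fun N hN b κ h1 h2 E h3 h4 h5 => (h.2.2 N hN b κ h1 h2 E h3 h4 h5).1⟩
  · obtain ⟨H₀, hH₀, h⟩ := near_all ε hε hε1
    refine ⟨H₀, hH₀, fun H hH => ?_⟩
    filter_upwards [h H hH] with T h κ h1 h2 E h3 h4 h5
    exact (h κ h1 h2 E h3 h4 h5).1

theorem final_d (ε : ℝ) (hε : 0 < ε) (hε1 : ε ≤ 1) : FF Pd (fun κ => (3 - cst κ) / 2) ε := by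
  refine final_P Pd _ ε hε ?_ ?_
  · obtain ⟨H₀, hH₀, h⟩ := fin_all ε hε hε1
    refine ⟨H₀, hH₀, fun H hH => ?_⟩
    obtain ⟨θ, hθ, h⟩ := h H hH
    refine ⟨θ, hθ, ?_⟩
    filter_upwards [h] with T h
    exact ⟨h.1, h.2.1, fun N hN b κ h1 h2 E h3 h4 h5 => (h.2.2 N hN b κ h1 h2 E h3 h4 h5).2⟩
  · obtain ⟨H₀, hH₀, h⟩ := near_all ε hε hε1
    refine ⟨H₀, hH₀, fun H hH => ?_⟩
    filter_upwards [h H hH] with T h κ h1 h2 E h3 h4 h5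
    exact (h κ h1 h2 E h3 h4 h5).2

/-- the case of the constant polynomial: the size of the set of bad points -/
theorem final_one {P : ℂ → Prop} {a : ℝ → ℝ} {ε : ℝ} (h : FF P a ε) (κ l : ℝ) (h1 : ε ≤ κ) (h2 : κ ≤ 1)
    (hl : l ≤ a κ - ε) : ∃ H₀ : ℝ, ∀ H : ℝ, H₀ ≤ H → ∃ T₀ : ℝ, ∀ T : ℝ, T₀ ≤ T →
      volume.real {t : ℝ | t ∈ Set.Icc T (2 * T) ∧ (cnt P t (H / Real.log T) : ℝ) < l * (H / Real.pi)} ≤ κ * T := by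
  obtain ⟨H₀, hH₀, h⟩ := h
  refine ⟨H₀, fun H hH => ?_⟩
  obtain ⟨θ, T₀, hθ, hT₀, h⟩ := h H hH
  refine ⟨T₀, fun T hT => ?_⟩
  have hT1 : 1 ≤ T := hT₀.trans hT
  have h3 := ((h T hT κ h1 h2).1 1 (by push_cast; exact Real.one_le_rpow hT1 hθ.le) (fun _ => 1)).2
  unfold ms at h3
  simp only [dp_one, norm_one, one_pow, mul_one, integral_const, smul_eq_mul, measureReal_restrict_apply_univ] at h3
  rw [Real.volume_real_Icc_of_le (by linarith), show 2 * T - T = T by ring] at h3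
  refine le_trans (measureReal_mono ?_ ?_) h3
  · rintro t ⟨ht, ht1⟩
    refine ⟨ht, lt_of_lt_of_le ht1 ?_⟩
    exact mul_le_mul_of_nonneg_right hl (div_nonneg (by linarith) Real.pi_pos.le)
  · exact ne_top_of_le_ne_top (by simp) (measure_mono (fun t ht => ht.1 :
      {t : ℝ | t ∈ Set.Icc T (2 * T) ∧ (cnt P t (H / Real.log T) : ℝ) < (a κ - ε) * (H / Real.pi)} ⊆ Set.Icc T (2 * T)))

end Pool.Agent.U85.Zd
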