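import Pool.Agent.Q150.UM.ZU

set_option autoImplicit false

/-!
The local zero sum for small frequencies, in mean absolute value (after `Pool.Agent.Q150.UM.ZU`).
-/

namespace Pool.Agent.U85.Zd

open Filter Topology MeasureTheory Complex
open scoped ComplexConjugate
open Pool.Agent.Q97.UM Pool.Agent.Q150.UM

noncomputable section

/-- for small frequencies the local zero sum is close to its mean value, in mean absolute value
against `|B|²` -/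
def S_ZA : Prop := ∃ C₀ : ℝ, 1 ≤ C₀ ∧ ∀ (δ H C : ℝ) (K : ℕ) (w : ℝ → ℝ) (θ ε η : ℝ), 0 < δ → δ ≤ 1 / 16 → 1 ≤ H → 1 ≤ C → 2 ≤ K →
  OmW δ H C K w → 0 < θ → θ ≤ 1 / 40 → 0 < ε → 0 < η → η ≤ 1 → ∀ᶠ T : ℝ in atTop, ∀ N : ℕ, (N : ℝ) ≤ T ^ θ → ∀ (b : ℕ → ℂ) (u : ℝ),
    0 ≤ u → u < 3 * δ * Real.log T → u ≤ (1 - 4 * δ - 2 * θ) * Real.log T →
    ∫ t in (T + 2 * Real.log T)..(2 * T - 2 * Real.log T), |‖Zt w T u t‖ ^ 2 - QL w (Real.log T) u ^ 2| * ‖dp N b t‖ ^ 2 ≤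
      (η * QL w (Real.log T) u ^ 2 + C₀ / η * (δ + Real.sqrt θ) * I2 w + ε) * T * N2 N b

/-- comparison in the second case -/
lemma zu2a {A B : ℝ} (hAB : A ≤ B) {V : ℝ → ℝ} (hVc : Continuous V) (hV0 : ∀ t, 0 ≤ V t) {Z P P' : ℝ → ℂ} (hZ : Continuous Z)
    (hP : Continuous P) (hP' : Continuous P') (e : ℝ → ℂ) (q c η : ℝ) (hη : 0 < η) (hη1 : η ≤ 1)
    (he : ∀ t ∈ Set.Icc A B, ‖e t‖ ≤ c)
    (hZr : ∀ t ∈ Set.Icc A B, ‖Z t‖ = ‖(q : ℂ) - (P t + conj (P' t) - e t)‖) :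
    ∫ t in A..B, |‖Z t‖ ^ 2 - q ^ 2| * V t ≤
      (6 / η) * ((∫ t in A..B, ‖P t‖ ^ 2 * V t) + ∫ t in A..B, ‖P' t‖ ^ 2 * V t) +
        (η * q ^ 2 + (6 / η) * c ^ 2) * ∫ t in A..B, V t := by
  have hpt : ∀ t ∈ Set.Icc A B, |‖Z t‖ ^ 2 - q ^ 2| ≤ η * q ^ 2 + (6 / η) * (‖P t‖ ^ 2 + ‖P' t‖ ^ 2 + c ^ 2) := by
    intro t ht
    have h2 : ‖(q : ℂ)‖ ^ 2 = q ^ 2 := by rw [Complex.norm_real, Real.norm_eq_abs, sq_abs]
    have h3 := sq_pert (q : ℂ) (P t + conj (P' t) - e t) η hη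
    rw [← hZr t ht, h2] at h3
    refine h3.trans (add_le_add_right ?_ _)
    have h4 : ‖P t + conj (P' t) - e t‖ ≤ ‖P t‖ + ‖P' t‖ + c := by
      refine (norm_sub_le _ _).trans (add_le_add ((norm_add_le _ _).trans (le_of_eq ?_)) (he t ht))
      rw [RCLike.norm_conj]
    have h5 : ‖P t + conj (P' t) - e t‖ ^ 2 ≤ 3 * (‖P t‖ ^ 2 + ‖P' t‖ ^ 2 + c ^ 2) := by
      refine (pow_le_pow_left₀ (norm_nonneg _) h4 2).trans ?_
      nlinarith [sq_nonneg (‖P t‖ - ‖P' t‖), sq_nonneg (‖P t‖ - c), sq_nonneg (‖P' t‖ - c)]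
    have h6 : 1 / η + 1 ≤ 2 / η := by
      have : 1 ≤ 1 / η := by rw [le_div_iff₀ hη]; linarith
      have h7 : 2 / η = 1 / η + 1 / η := by ring
      linarith
    calc (1 / η + 1) * ‖P t + conj (P' t) - e t‖ ^ 2 ≤
        (2 / η) * (3 * (‖P t‖ ^ 2 + ‖P' t‖ ^ 2 + c ^ 2)) :=
          mul_le_mul h6 h5 (by positivity) (by positivity)
      _ = _ := by ring
  have hint : ∫ t in A..B, |‖Z t‖ ^ 2 - q ^ 2| * V t ≤
      ∫ t in A..B, (η * q ^ 2 + (6 / η) * (‖P t‖ ^ 2 + ‖P' t‖ ^ 2 + c ^ 2)) * V t := by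
    refine intervalIntegral.integral_mono_on hAB (Continuous.intervalIntegrable (by fun_prop) _ _)
      (Continuous.intervalIntegrable (by fun_prop) _ _) fun t ht => ?_
    exact mul_le_mul_of_nonneg_right (hpt t ht) (hV0 t)
  have h6 : ∫ t in A..B, (η * q ^ 2 + (6 / η) * (‖P t‖ ^ 2 + ‖P' t‖ ^ 2 + c ^ 2)) * V t =
      (6 / η) * ((∫ t in A..B, ‖P t‖ ^ 2 * V t) + ∫ t in A..B, ‖P' t‖ ^ 2 * V t) +
        (η * q ^ 2 + (6 / η) * c ^ 2) * ∫ t in A..B, V t := by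
    have e1 : ∀ t, (η * q ^ 2 + (6 / η) * (‖P t‖ ^ 2 + ‖P' t‖ ^ 2 + c ^ 2)) * V t =
        (6 / η) * (‖P t‖ ^ 2 * V t + ‖P' t‖ ^ 2 * V t) + (η * q ^ 2 + (6 / η) * c ^ 2) * V t :=
      fun t => by ring
    simp only [e1]
    rw [intervalIntegral.integral_add, intervalIntegral.integral_const_mul, intervalIntegral.integral_const_mul,
      intervalIntegral.integral_add]
    · exact Continuous.intervalIntegrable (by fun_prop) _ _
    · exact Continuous.intervalIntegrable (by fun_prop) _ _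
    · exact Continuous.intervalIntegrable (by fun_prop) _ _
    · exact Continuous.intervalIntegrable (by fun_prop) _ _
  rwa [h6] at hint

/-- the numerical end of the second case -/
lemma num2a {IZ IP IP' IV W q s I₂ ul C₂ ε η c D : ℝ} (hW : 0 ≤ W) (hη : 0 < η) (hη1 : η ≤ 1)
    (h1 : IZ ≤ (6 / η) * (IP + IP') + (η * q ^ 2 + (6 / η) * c ^ 2) * IV)
    (hIV0 : 0 ≤ IV) (hIV : IV ≤ 2 * W) (hIV2 : |IV - W| ≤ ε / (8 * D ^ 2) * W) (hq : q ^ 2 ≤ D ^ 2) (hD : 1 ≤ D)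
    (hIP : IP ≤ (ul * I₂ + C₂ * s + η * ε / 48) * W) (hIP' : IP' ≤ (C₂ * s + η * ε / 48) * W)
    (hε : 0 < ε) (hs : 0 ≤ s) (hC₂ : 1 ≤ C₂) (hul : ul * I₂ ≤ 3 * s) (hc : c ^ 2 ≤ η * ε / 48) :
    IZ ≤ (η * q ^ 2 + 33 * C₂ / η * s + ε) * W := by
  have hq0 : 0 ≤ q ^ 2 := sq_nonneg q
  have p1 : q ^ 2 * |IV - W| ≤ ε / 8 * W := by
    calc q ^ 2 * |IV - W| ≤ D ^ 2 * (ε / (8 * D ^ 2) * W) := mul_le_mul hq hIV2 (abs_nonneg _) (by positivity)
      _ = ε / 8 * W := by field_simp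
  have p2 : η * q ^ 2 * IV ≤ η * q ^ 2 * W + ε / 8 * W := by
    have h8 : q ^ 2 * (IV - W) ≤ q ^ 2 * |IV - W| := mul_le_mul_of_nonneg_left (le_abs_self _) hq0
    have h7 : q ^ 2 * IV ≤ q ^ 2 * W + ε / 8 * W := by linarith
    have h9 := mul_le_mul_of_nonneg_left h7 hη.le
    have h10 : η * (ε / 8 * W) ≤ 1 * (ε / 8 * W) := mul_le_mul_of_nonneg_right hη1 (by positivity)
    have h11 : η * (q ^ 2 * IV) = η * q ^ 2 * IV := by ring
    have h12 : η * (q ^ 2 * W + ε / 8 * W) = η * q ^ 2 * W + η * (ε / 8 * W) := by ring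
    linarith
  have p3 : (6 / η) * c ^ 2 * IV ≤ ε / 4 * W := by
    have h8 : (6 / η) * c ^ 2 ≤ ε / 8 := by
      calc (6 / η) * c ^ 2 ≤ (6 / η) * (η * ε / 48) := mul_le_mul_of_nonneg_left hc (by positivity)
        _ = ε / 8 := by field_simp; norm_num
    calc (6 / η) * c ^ 2 * IV ≤ ε / 8 * (2 * W) := mul_le_mul h8 hIV hIV0 (by positivity)
      _ = ε / 4 * W := by ring
  have hsC : s ≤ C₂ * s := by nlinarith
  have p4 : (6 / η) * (IP + IP') ≤ (30 * C₂ / η * s + ε / 4) * W := by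
    have h7 : IP + IP' ≤ (5 * C₂ * s + η * ε / 24) * W := by
      have h8 : ul * I₂ + C₂ * s + η * ε / 48 + (C₂ * s + η * ε / 48) ≤ 5 * C₂ * s + η * ε / 24 := by
        linarith
      have h9 := mul_le_mul_of_nonneg_right h8 hW
      have h10 : (ul * I₂ + C₂ * s + η * ε / 48 + (C₂ * s + η * ε / 48)) * W =
        (ul * I₂ + C₂ * s + η * ε / 48) * W + (C₂ * s + η * ε / 48) * W := by ring
      linarith
    calc _ ≤ (6 / η) * ((5 * C₂ * s + η * ε / 24) * W) := mul_le_mul_of_nonneg_left h7 (by positivity)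
      _ = (30 * C₂ / η * s + ε / 4) * W := by field_simp; ring
  have p5 : 0 ≤ 3 * C₂ / η * s * W := by positivity
  have h14 : (η * q ^ 2 + 33 * C₂ / η * s + ε) * W = η * q ^ 2 * W + (30 * C₂ / η * s + ε / 4) * W + 3 * C₂ / η * s * W +
      ε / 4 * W + ε / 4 * W + ε / 8 * W + ε / 8 * W := by ring
  have h15 : (η * q ^ 2 + (6 / η) * c ^ 2) * IV = η * q ^ 2 * IV + (6 / η) * c ^ 2 * IV := by ring
  have h16 : 0 ≤ ε / 4 * W := by positivity
  rw [h14]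
  rw [h15] at h1
  linarith

theorem t_ZA (hQH : S_QH) (hQLF : S_QLF) (hMV : S_MV2) (hEFL : S_EFL) (hPU : S_PU) : S_ZA := by
  obtain ⟨C₁, hC₁, hMV⟩ := hMV
  obtain ⟨C₂, hC₂, hPU⟩ := hPU
  refine ⟨33 * C₂, by linarith, ?_⟩
  intro δ H C K w θ ε η hδ hδ1 hH hC hK hw hθ hθ1 hε hη hη1
  obtain ⟨D, hD, hQB⟩ := qb_of hQH hQLF hδ (by linarith) hH hC hK hw
  obtain ⟨D', hD', hE⟩ := hEFL δ H C K w hδ (by linarith) hH hC hK hw
  have hI2 := I2_nonneg w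
  have hc1 := c1_nonneg
  have hP := hPU δ H C K w θ (η * ε / 48) hδ hδ1 hH hC hK hw hθ hθ1 (by positivity)
  obtain ⟨K₁, hK₁⟩ : ∃ K₁ : ℝ, K₁ = (1 + 2 * C₂) * I2 w + η * ε / 48 := ⟨_, rfl⟩
  have hK₁0 : 0 ≤ K₁ := by rw [hK₁]; positivity
  filter_upwards [hE, hP, ev_log 1, ev_log (2 / δ ^ 2), ev_log (2 * (D + D * Real.exp (1 / 2) * c1)),
    ev_log ((D' + 1) * (1 + 4 * (K₁ + 5) / ε)), ev_log (48 * D' ^ 2 / (η * ε)), ev_loglin (1 / 8) (by norm_num),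
    ev_loglin (ε / (16 * (I2 w + 1))) (by positivity), ev_loglin (ε / (8 * D ^ 2) / 8) (by positivity),
    ev_short C₁ (ε / (8 * D ^ 2) / 2) θ (by linarith) (by positivity) hθ1, ev_short C₁ (1 / 2) θ (by linarith) (by norm_num) hθ1,
    eventually_ge_atTop (1 : ℝ)] with T hE hP hL1 hL2 hL3 hL4 hL5 hL6 hL7 hL8 hSh hSh' hT1 N hN b u hu0 hcase hu1
  generalize hL : Real.log T = L at *
  have hL0 : 0 < L := by linarith
  have hT0 : 0 < T := by linarith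
  have hQ := hQB L hL1
  have hδL : 0 ≤ δ * L := by positivity
  obtain ⟨A, hA⟩ : ∃ A : ℝ, A = T + 2 * L := ⟨_, rfl⟩
  obtain ⟨B, hB⟩ : ∃ B : ℝ, B = 2 * T - 2 * L := ⟨_, rfl⟩
  rw [← hA, ← hB]
  rw [← hA, ← hB] at hE
  have hAB : A ≤ B := by rw [hA, hB]; linarith
  have hBA : B - A = T - 4 * L := by rw [hA, hB]; ring
  have hVc : Continuous fun t => ‖dp N b t‖ ^ 2 := by
    have := dp_cont N b
    fun_prop
  have hV0 : ∀ t, 0 ≤ ‖dp N b t‖ ^ 2 := fun t => by positivity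
  have hN2 := N2_nonneg N b
  have hTN : 0 ≤ T * N2 N b := by positivity
  have hD0 : (0 : ℝ) ≤ D := by linarith
  have hPc : Continuous (PL w L u) := PL_cont hQ hD0 hδL hL0 u
  have hPc' : Continuous (PL w L (-u)) := PL_cont hQ hD0 hδL hL0 (-u)
  have hZc : Continuous (Zt w T u) := Zt_cont hw T u
  have hqD : QL w L u ^ 2 ≤ D ^ 2 := by
    rw [sq_le_sq, abs_of_nonneg hD0]
    exact hQ.bdd u
  have hu2 : u ≤ L := hu1.trans (by
    have : 0 ≤ (4 * δ + 2 * θ) * L := by positivity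
    linarith)
  have huL : u / L ≤ 1 := (div_le_one hL0).2 hu2
  have huL0 : 0 ≤ u / L := by positivity
  obtain ⟨s, hs⟩ : ∃ s : ℝ, s = (δ + Real.sqrt θ) * I2 w := ⟨_, rfl⟩
  have hsθ := Real.sqrt_nonneg θ
  have hs0 : 0 ≤ s := by rw [hs]; positivity
  have hδs : δ * I2 w ≤ s := by
    rw [hs]
    exact mul_le_mul_of_nonneg_right (by linarith) hI2
  have hδθ : δ + Real.sqrt θ ≤ 2 := by
    have : Real.sqrt θ ≤ 1 := by
      rw [Real.sqrt_le_one]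
      linarith
    linarith
  have hsI : s ≤ 2 * I2 w := by
    rw [hs]
    exact mul_le_mul_of_nonneg_right hδθ hI2
  -- the error of the explicit formula
  obtain ⟨e, he⟩ : ∃ e : ℝ → ℂ, e = fun t : ℝ => cexp (-(I * u * t)) * Zt w T u t -
    ((QL w L u : ℂ) - PL w L u t - conj (PL w L (-u) t)) := ⟨_, rfl⟩
  have heE : ∀ t ∈ Set.Icc A B, ‖e t‖ ≤ D' / L := by
    intro t ht
    rw [he]
    refine hE u t hu0 (hu1.trans ?_) ht.1 ht.2
    exact mul_le_mul_of_nonneg_right (by linarith) hL0.le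
  -- the integral of `V`
  have hVms := dp_ms hMV A B hAB N b
  have hVint : |(∫ t in A..B, ‖dp N b t‖ ^ 2) - T * N2 N b| ≤ ε / (8 * D ^ 2) * (T * N2 N b) := by
    have h1 := mul_le_mul_of_nonneg_right (hSh N hN) hN2
    have e1 : (∫ t in A..B, ‖dp N b t‖ ^ 2) - T * N2 N b = ((∫ t in A..B, ‖dp N b t‖ ^ 2) - (B - A) * N2 N b) - 4 * L * N2 N b := by
      rw [hBA]
      ring
    rw [e1]
    refine (abs_sub _ _).trans ?_
    rw [abs_of_nonneg (show 0 ≤ 4 * L * N2 N b by positivity)]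
    have h3 := mul_le_mul_of_nonneg_right hL8 hN2
    have h4 : ε / (8 * D ^ 2) / 8 * T * N2 N b = ε / (8 * D ^ 2) * (T * N2 N b) / 8 := by ring
    have h5 : ε / (8 * D ^ 2) / 2 * T * N2 N b = ε / (8 * D ^ 2) * (T * N2 N b) / 2 := by ring
    rw [h4] at h3
    rw [h5] at h1
    linarith
  have hVle : ∫ t in A..B, ‖dp N b t‖ ^ 2 ≤ 2 * (T * N2 N b) := by
    have h1 := mul_le_mul_of_nonneg_right (hSh' N hN) hN2
    have h3 := (abs_le.1 hVms).2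
    have h4 : (B - A) * N2 N b ≤ T * N2 N b := mul_le_mul_of_nonneg_right (by rw [hBA]; linarith) hN2
    have h5 : 1 / 2 * T * N2 N b = (T * N2 N b) / 2 := by ring
    rw [h5] at h1
    linarith
  have hV0i : 0 ≤ ∫ t in A..B, ‖dp N b t‖ ^ 2 := intervalIntegral.integral_nonneg hAB fun t _ => hV0 t
  -- the prime sums
  have hP1 := hP N hN b u A B (by linarith) hu1 (by rw [hA]; linarith) hAB (by rw [hB]; linarith)
  have hP2 := hP N hN b (-u) A B (by linarith) (by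
    have : 0 ≤ (1 - 4 * δ - 2 * θ) * L := mul_nonneg (by linarith) hL0.le
    linarith) (by rw [hA]; linarith) hAB (by rw [hB]; linarith)
  rw [max_eq_left hu0] at hP1
  rw [max_eq_right (show -u ≤ 0 by linarith), zero_div, mul_zero, zero_mul, zero_mul, sub_zero] at hP2
  have e0 : (C₂ * (δ + Real.sqrt θ) * I2 w + η * ε / 48) * T * N2 N b = (C₂ * s + η * ε / 48) * (T * N2 N b) := by
    rw [hs]; ring
  rw [e0] at hP1 hP2
  have hP2' : ∫ t in A..B, ‖PL w L (-u) t‖ ^ 2 * ‖dp N b t‖ ^ 2 ≤ (C₂ * s + η * ε / 48) * (T * N2 N b) := (abs_le.1 hP2).2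
  have hBAT : (B - A) * (u / L) * I2 w * N2 N b = (u / L) * I2 w * (T * N2 N b) - 4 * L * (u / L) * I2 w * N2 N b := by
    rw [hBA]
    ring
  have h4L : 0 ≤ 4 * L * (u / L) * I2 w * N2 N b := by positivity
  have hP1' : ∫ t in A..B, ‖PL w L u t‖ ^ 2 * ‖dp N b t‖ ^ 2 ≤ (u / L * I2 w + C₂ * s + η * ε / 48) * (T * N2 N b) := by
    have h1 := (abs_le.1 hP1).2
    have h2 : (u / L * I2 w + C₂ * s + η * ε / 48) * (T * N2 N b) = u / L * I2 w * (T * N2 N b) +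
      (C₂ * s + η * ε / 48) * (T * N2 N b) := by ring
    rw [hBAT] at h1
    rw [h2]
    linarith
  have hint := zu2a hAB hVc hV0 hZc hPc hPc' e (QL w L u) (D' / L) η hη hη1 heE (by
    intro t _
    rw [← norm_rot u t]
    congr 1
    rw [he]
    ring)
  have huδ : u / L ≤ 3 * δ := by
    rw [div_le_iff₀ hL0]
    exact hcase.le
  have hui : u / L * I2 w ≤ 3 * s := by
    have : u / L * I2 w ≤ 3 * δ * I2 w := mul_le_mul_of_nonneg_right huδ hI2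
    linarith
  have hc : (D' / L) ^ 2 ≤ η * ε / 48 := by
    rw [div_pow]
    have h8 : L ≤ L ^ 2 := by nlinarith
    rw [div_le_iff₀ (by positivity)]
    rw [div_le_iff₀ (by positivity)] at hL5
    have h9 : L * (η * ε) ≤ L ^ 2 * (η * ε) := mul_le_mul_of_nonneg_right h8 (by positivity)
    linarith
  have hfin := num2a (I₂ := I2 w) (ul := u / L) hTN hη hη1 hint hV0i hVle hVint hqD hD hP1' hP2' hε hs0 hC₂ hui hc
  have e2 : (η * QL w L u ^ 2 + 33 * C₂ / η * (δ + Real.sqrt θ) * I2 w + ε) * T * N2 N b =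
      (η * QL w L u ^ 2 + 33 * C₂ / η * s + ε) * (T * N2 N b) := by
    rw [hs]; ring
  rw [e2]
  exact hfin


end

end Pool.Agent.U85.Zd
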