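import Pool.Agent.Q176.UM.PAIR
import Pool.Agent.U85.Zd.Za

set_option autoImplicit false

/-!
The pair sum against a weight: the part which is constant in `t`, and the rest, in mean absolute value
(after `Pool.Agent.Q176.UM.PAIR`).
-/

namespace Pool.Agent.U85.Zd

open Filter Topology MeasureTheory Complex
open Pool.Agent.Q97.UM Pool.Agent.Q176.UM

noncomputable section

/-- the two parts of the pair sum -/
def S_GP : Prop := ∀ (R : ℝ → ℝ) (D lam : ℝ), (∀ x y : ℝ, |R x - R y| ≤ D * |x - y|) → (∀ x, 0 ≤ R x) →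
  0 < lam → lam < 1 → ∃ C₁ : ℝ, 1 ≤ C₁ ∧
  ∀ (δ H C : ℝ) (K : ℕ) (w : ℝ → ℝ) (θ ε : ℝ), 0 < δ → δ ≤ 1 / 16 → 3 * δ ≤ lam → lam + 4 * δ + 2 * θ ≤ 1 → 1 ≤ H → 1 ≤ C → 2 ≤ K →
  OmW δ H C K w → 0 < θ → θ ≤ 1 / 40 → 0 < ε → ∀ᶠ T : ℝ in atTop,
    2 * (∫ α in (0 : ℝ)..(3 * δ / lam), R α * QL w (Real.log T) (lam * Real.log T * α) ^ 2) ≤
      R 0 / lam * I2 w + (C₁ * (Real.sqrt δ + Real.sqrt θ) * I2 w + ε) ∧
    ∀ N : ℕ, (N : ℝ) ≤ T ^ θ → ∀ b : ℕ → ℂ,
    2 * (∫ α in (0 : ℝ)..(3 * δ / lam), R α * ∫ t in (T + 2 * Real.log T)..(2 * T - 2 * Real.log T),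
        |‖Zt w T (lam * Real.log T * α) t‖ ^ 2 - QL w (Real.log T) (lam * Real.log T * α) ^ 2| * ‖dp N b t‖ ^ 2) +
      2 * (∫ α in (3 * δ / lam)..1, R α * ∫ t in (T + 2 * Real.log T)..(2 * T - 2 * Real.log T),
        ‖Zt w T (lam * Real.log T * α) t‖ ^ 2 * ‖dp N b t‖ ^ 2) ≤
      (2 * lam * (∫ α in (0 : ℝ)..1, α * R α) * I2 w + (C₁ * (Real.sqrt δ + Real.sqrt θ) * I2 w + ε)) *
        (T * N2 N b)

theorem q_tail {q : ℝ → ℝ} {δ D L x : ℝ} (hδ : 0 < δ) (hL : 1 ≤ L)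
    (ht : ∀ x : ℝ, 2 * δ * L ≤ |x| → |q x| ≤ D * Real.exp (-(|x| - 2 * δ * L) ^ 2 / 2))
    (hu : 3 * δ * L ≤ x) : q x ^ 2 ≤ D ^ 2 / (δ ^ 2 * L) := by
  have hL0 : 0 < L := by linarith
  have hu0 : 0 ≤ x := le_trans (by positivity) hu
  have h4 := ht x (by
    rw [abs_of_nonneg hu0]
    have : 0 ≤ δ * L := by positivity
    linarith)
  rw [abs_of_nonneg hu0] at h4
  have h5 := pow_le_pow_left₀ (abs_nonneg _) h4 2
  rw [sq_abs, mul_pow, ← Real.exp_nat_mul] at h5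
  have h6 : Real.exp (((2 : ℕ) : ℝ) * (-(x - 2 * δ * L) ^ 2 / 2)) ≤ 1 / (δ ^ 2 * L) := by
    have h7 : ((2 : ℕ) : ℝ) * (-(x - 2 * δ * L) ^ 2 / 2) ≤ -(δ ^ 2 * L) := by
      push_cast
      have h8 : δ * L ≤ x - 2 * δ * L := by linarith
      have h9 : (δ * L) ^ 2 ≤ (x - 2 * δ * L) ^ 2 := pow_le_pow_left₀ (by positivity) h8 2
      have h10 : δ ^ 2 * L ≤ (δ * L) ^ 2 := by
        rw [mul_pow]
        refine mul_le_mul_of_nonneg_left ?_ (by positivity)
        exact le_self_pow₀ hL two_ne_zero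
      linarith
    refine (Real.exp_le_exp.2 h7).trans ?_
    rw [Real.exp_neg, one_div]
    refine inv_anti₀ (by positivity) ?_
    have := Real.add_one_le_exp (δ ^ 2 * L)
    linarith
  refine h5.trans ((mul_le_mul_of_nonneg_left h6 (by positivity)).trans (le_of_eq ?_))
  ring

theorem A_cont {a : ℝ} {w q : ℝ → ℝ} (h : Cp a w) (hq : Continuous q) (T c x y : ℝ) (N : ℕ) (b : ℕ → ℂ) :
    Continuous (fun α : ℝ => ∫ t in x..y, |‖Zt w T (c * α) t‖ ^ 2 - q (c * α) ^ 2| * ‖dp N b t‖ ^ 2) := by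
  have h1 := Zt_cont h T
  have h2 := dp_cont N b
  refine intervalIntegral.continuous_parametric_intervalIntegral_of_continuous'
    (f := fun (α : ℝ) (t : ℝ) => |‖Zt w T (c * α) t‖ ^ 2 - q (c * α) ^ 2| * ‖dp N b t‖ ^ 2) ?_ x y
  show Continuous fun p : ℝ × ℝ => |‖Zt w T (c * p.1) p.2‖ ^ 2 - q (c * p.1) ^ 2| * ‖dp N b p.2‖ ^ 2
  have h4 : Continuous fun p : ℝ × ℝ => ((c * p.1, p.2) : ℝ × ℝ) := by fun_prop
  have h3 := h1.comp h4
  simp only [Function.comp_def] at h3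
  have h5 : Continuous fun p : ℝ × ℝ => q (c * p.1) := hq.comp (by fun_prop)
  exact (((h3.norm.pow 2).sub (h5.pow 2)).abs).mul ((h2.comp continuous_snd).norm.pow 2)

theorem t_GP (hQH : S_QH) (hQLF : S_QLF) (hZU : S_ZU) (hZA : S_ZA) : S_GP := by
  intro R E lam hR hRn hlam hlam1
  obtain ⟨C₀', hC₀', hZU⟩ := hZU
  obtain ⟨C₀'', hC₀'', hZA⟩ := hZA
  obtain ⟨C₀, hC₀⟩ : ∃ C₀ : ℝ, C₀ = max C₀' C₀'' := ⟨_, rfl⟩
  have hC0a : C₀' ≤ C₀ := by rw [hC₀]; exact le_max_left _ _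
  have hC0b : C₀'' ≤ C₀ := by rw [hC₀]; exact le_max_right _ _
  have hC01 : 1 ≤ C₀ := hC₀'.trans hC0a
  have hE : 0 ≤ E := by
    have := hR 0 1
    have h2 := abs_nonneg (R 0 - R 1)
    simp only [zero_sub, abs_neg, abs_one, mul_one] at this
    linarith
  have hRc : Continuous R := by
    have : LipschitzWith (Real.toNNReal E) R := by
      refine LipschitzWith.of_dist_le_mul fun x y => ?_
      rw [Real.dist_eq, Real.dist_eq]
      exact (hR x y).trans (mul_le_mul_of_nonneg_right (Real.le_coe_toNNReal E) (abs_nonneg _))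
    exact this.continuous
  set M : ℝ := |R 0| + E with hMdef
  have hM : 0 ≤ M := by positivity
  have hRM : ∀ α : ℝ, 0 ≤ α → α ≤ 1 → R α ≤ M := by
    intro α h0 h1
    have h2 := hR α 0
    rw [sub_zero, abs_of_nonneg h0] at h2
    have h3 : |R α| ≤ |R α - R 0| + |R 0| := by
      have := abs_add_le (R α - R 0) (R 0)
      rwa [sub_add_cancel] at this
    have h4 : E * α ≤ E := mul_le_of_le_one_right hE h1
    have h5 := le_abs_self (R α)
    rw [hMdef]
    linarith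
  refine ⟨1 + (M / lam + 6 * M * C₀ / lam + 2 * M * C₀ + 3 * E / lam ^ 2), ?_, ?_⟩
  · have : 0 ≤ M / lam + 6 * M * C₀ / lam + 2 * M * C₀ + 3 * E / lam ^ 2 := by positivity
    linarith
  intro δ H C K w θ ε hδ hδ1 hδl hs hH hC hK hw hθ hθ1 hε
  obtain ⟨q1, q2, q3, -, -, -⟩ := hQH δ H C K w hδ (by linarith) hH hC hK hw
  obtain ⟨D, hD, hql⟩ := hQLF δ w hδ (by linarith) q1 q2 q3
  have hJ : 0 ≤ I2 w := integral_nonneg fun v => by positivity
  have hcp : Cp δ w := by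
    obtain ⟨D', hD'⟩ := hw.lip
    have : LipschitzWith (Real.toNNReal D') w := by
      refine LipschitzWith.of_dist_le_mul fun x y => ?_
      rw [Real.dist_eq, Real.dist_eq]
      exact (hD' x y).trans (mul_le_mul_of_nonneg_right (Real.le_coe_toNNReal D') (abs_nonneg _))
    exact ⟨this.continuous, hw.supp⟩
  have hη := Real.sqrt_pos.2 hδ
  have hη1 : Real.sqrt δ ≤ 1 := Real.sqrt_le_one.2 (by linarith)
  obtain ⟨ε', hε'⟩ : ∃ ε' : ℝ, ε' = ε / 2 / (4 * (M + 1)) := ⟨_, rfl⟩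
  have hε'0 : 0 < ε' := by rw [hε']; positivity
  have ev1 := hZU δ H C K w θ ε' (Real.sqrt δ) hδ hδ1 hH hC hK hw hθ hθ1 hε'0 hη hη1
  have ev1' := hZA δ H C K w θ ε' (Real.sqrt δ) hδ hδ1 hH hC hK hw hθ hθ1 hε'0 hη hη1
  have ev2 : ∀ᶠ T : ℝ in atTop, 1 ≤ Real.log T := Real.tendsto_log_atTop.eventually_ge_atTop 1
  have ev3 : ∀ᶠ T : ℝ in atTop, (M * D / lam + 3 * E * D / lam ^ 2 + 2 * E * D ^ 2 / δ ^ 2 +
      |R 0| * (D + 4 * D ^ 2) / lam) / Real.log T ≤ ε / 2 / 2 := by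
    have h1 := (tendsto_const_nhds (x := M * D / lam + 3 * E * D / lam ^ 2 + 2 * E * D ^ 2 / δ ^ 2 +
      |R 0| * (D + 4 * D ^ 2) / lam)).div_atTop Real.tendsto_log_atTop
    exact h1.eventually (ge_mem_nhds (by positivity))
  have ev4 : ∀ᶠ T : ℝ in atTop, (2 * M * D ^ 2 / δ ^ 2) / Real.log T ≤ ε / 2 := by
    have h1 := (tendsto_const_nhds (x := 2 * M * D ^ 2 / δ ^ 2)).div_atTop Real.tendsto_log_atTop
    exact h1.eventually (ge_mem_nhds (by positivity))
  filter_upwards [ev1, ev1', ev2, ev3, ev4, eventually_ge_atTop 0] with T g1 g1' g2 g3 g3' g4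
  set L : ℝ := Real.log T with hLdef
  have hL0 : 0 < L := by linarith
  obtain ⟨c1, c2, -, -, c5, c6, c7, -⟩ := hql L g2
  obtain ⟨l1, l2⟩ := ql_part hR hlam hδ hδl g2 hD c1 c2 c5 c6 c7
  set S1 : ℝ := ∫ α in (0 : ℝ)..1, QL w L (lam * L * α) ^ 2 with hS1
  have hqc : Continuous fun α : ℝ => QL w L (lam * L * α) ^ 2 := by fun_prop
  have hRqc : Continuous fun α => R α * QL w L (lam * L * α) ^ 2 := hRc.mul hqc
  set a₀ : ℝ := 3 * δ / lam with ha₀
  have ha0 : 0 ≤ a₀ := by positivity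
  have ha1 : a₀ ≤ 1 := by
    rw [ha₀, div_le_one hlam]
    exact hδl
  have hS10 : 0 ≤ S1 := intervalIntegral.integral_nonneg zero_le_one fun α _ => by positivity
  have hco := coef_ineq (θ := θ) hM hlam hC01 hδ (by linarith : δ ≤ 1) hE hD hJ g2
    (by positivity : 0 < ε / 2) (r := |R 0|) hε' l1 g3
  have hθs := Real.sqrt_nonneg θ
  have hpos1 : 0 ≤ 2 * (M * (Real.sqrt δ * S1 + 3 * δ / lam * (C₀ / Real.sqrt δ * (δ + Real.sqrt θ) * I2 w) +
      C₀ * (δ + Real.sqrt θ) * I2 w + ε')) := by positivity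
  have hpos2 : 0 ≤ E * (3 * δ / lam) * (I2 w / lam + D / (lam * L)) +
      2 * E * D ^ 2 / (δ ^ 2 * L) + |R 0| * (D + 4 * D ^ 2) / (lam * L) := by positivity
  constructor
  · have h1 : (∫ α in (0 : ℝ)..a₀, R α * QL w L (lam * L * α) ^ 2) ≤
        ∫ α in (0 : ℝ)..1, R α * QL w L (lam * L * α) ^ 2 := by
      refine intervalIntegral.integral_mono_interval le_rfl ha0 ha1 ?_ (hRqc.intervalIntegrable _ _)
      exact Eventually.of_forall fun α => mul_nonneg (hRn α) (sq_nonneg _)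
    have h2 := (abs_le.1 l2).2
    have e : R 0 * I2 w / lam = R 0 / lam * I2 w := by ring
    rw [e] at h2
    linarith
  intro N hN b
  have hN2 : 0 ≤ N2 N b := Finset.sum_nonneg fun n _ => by positivity
  have hP : 0 ≤ T * N2 N b := mul_nonneg g4 hN2
  set W : ℝ → ℝ := fun α => ∫ t in (T + 2 * L)..(2 * T - 2 * L), ‖Zt w T (lam * L * α) t‖ ^ 2 * ‖dp N b t‖ ^ 2
    with hW
  have hWc : Continuous W := W_cont hcp T (lam * L) _ _ N b
  set A : ℝ → ℝ := fun α => ∫ t in (T + 2 * L)..(2 * T - 2 * L),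
    |‖Zt w T (lam * L * α) t‖ ^ 2 - QL w L (lam * L * α) ^ 2| * ‖dp N b t‖ ^ 2 with hA
  have hAc : Continuous A := A_cont hcp c1 T (lam * L) _ _ N b
  have hlow : ∀ α : ℝ, 0 ≤ α → α < a₀ → A α ≤
      (Real.sqrt δ * QL w L (lam * L * α) ^ 2 + C₀ / Real.sqrt δ * (δ + Real.sqrt θ) * I2 w + ε') *
        (T * N2 N b) := by
    intro α h0 h1
    have h2 := g1' N hN b (lam * L * α) (by positivity) (by
      rw [ha₀, lt_div_iff₀ hlam] at h1
      have := mul_lt_mul_of_pos_right h1 hL0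
      linarith) (by
      have h3 : lam * L * α ≤ lam * L := mul_le_of_le_one_right (by positivity) (h1.le.trans ha1)
      have h4 : lam * L ≤ (1 - 4 * δ - 2 * θ) * L := mul_le_mul_of_nonneg_right (by linarith) hL0.le
      linarith)
    rw [mul_assoc _ T] at h2
    refine h2.trans (mul_le_mul_of_nonneg_right ?_ hP)
    have h5 : C₀'' / Real.sqrt δ * (δ + Real.sqrt θ) * I2 w ≤ C₀ / Real.sqrt δ * (δ + Real.sqrt θ) * I2 w := by
      gcongr
    linarith
  have hhigh : ∀ α : ℝ, a₀ ≤ α → α ≤ 1 → W α ≤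
      (QL w L (lam * L * α) ^ 2 + lam * α * I2 w + C₀ * (δ + Real.sqrt θ) * I2 w + ε') * (T * N2 N b) := by
    intro α h0 h1
    have h00 := ha0.trans h0
    have h2 := g1 N hN b (lam * L * α) (by positivity) (by
      have h3 : lam * L * α ≤ lam * L := mul_le_of_le_one_right (by positivity) h1
      have h4 : lam * L ≤ (1 - 4 * δ - 2 * θ) * L := mul_le_mul_of_nonneg_right (by linarith) hL0.le
      linarith)
    have hif : 3 * δ * L ≤ lam * L * α := by
      have h2 : 3 * δ ≤ α * lam := by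
        rw [ha₀, div_le_iff₀ hlam] at h0
        exact h0
      have := mul_le_mul_of_nonneg_right h2 hL0.le
      linarith
    have e : lam * L * α / L = lam * α := by field_simp
    rw [e, if_pos hif, mul_assoc _ T, mul_assoc _ T] at h2
    have h3 := (abs_le.1 h2).2
    have h5 : C₀' * (δ + Real.sqrt θ) * I2 w ≤ C₀ * (δ + Real.sqrt θ) * I2 w := by gcongr
    have h6 := mul_le_mul_of_nonneg_right h5 hP
    have e2 : (QL w L (lam * L * α) ^ 2 + lam * α * I2 w + C₀ * (δ + Real.sqrt θ) * I2 w + ε') * (T * N2 N b) =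
      (QL w L (lam * L * α) ^ 2 + lam * α * I2 w) * (T * N2 N b) +
        (C₀ * (δ + Real.sqrt θ) * I2 w) * (T * N2 N b) + ε' * (T * N2 N b) := by ring
    have e3 : (C₀' * (δ + Real.sqrt θ) * I2 w + ε') * (T * N2 N b) =
      (C₀' * (δ + Real.sqrt θ) * I2 w) * (T * N2 N b) + ε' * (T * N2 N b) := by ring
    rw [e3] at h3
    rw [e2]
    linarith
  -- the first part
  have hb1 : (∫ α in (0 : ℝ)..a₀, R α * A α) ≤
      M * (Real.sqrt δ * S1 + a₀ * (C₀ / Real.sqrt δ * (δ + Real.sqrt θ) * I2 w + ε')) * (T * N2 N b) := by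
    have h1 : (∫ α in (0 : ℝ)..a₀, R α * A α) ≤ ∫ α in (0 : ℝ)..a₀,
        M * (Real.sqrt δ * QL w L (lam * L * α) ^ 2 + (C₀ / Real.sqrt δ * (δ + Real.sqrt θ) * I2 w +
        ε')) * (T * N2 N b) := by
      refine intervalIntegral.integral_mono_ae_restrict ha0 ((hRc.mul hAc).intervalIntegrable _ _)
        (Continuous.intervalIntegrable (by fun_prop) _ _) ?_
      have h9 : ∀ᵐ α ∂(volume.restrict (Set.Icc 0 a₀)), α ≠ a₀ := by
        refine ae_restrict_of_ae ?_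
        exact (measure_eq_zero_iff_ae_notMem.mp (by simp : volume ({a₀} : Set ℝ) = 0)).mono
          fun x hx => by simpa using hx
      filter_upwards [ae_restrict_mem measurableSet_Icc, h9] with α hα hα2
      have hα3 : α < a₀ := lt_of_le_of_ne hα.2 hα2
      have h2 := hlow α hα.1 hα3
      have h3 : 0 ≤ (Real.sqrt δ * QL w L (lam * L * α) ^ 2 + C₀ / Real.sqrt δ * (δ + Real.sqrt θ) * I2 w + ε') *
        (T * N2 N b) := by positivity
      calc R α * A α ≤ R α * ((Real.sqrt δ * QL w L (lam * L * α) ^ 2 +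
            C₀ / Real.sqrt δ * (δ + Real.sqrt θ) * I2 w + ε') * (T * N2 N b)) :=
            mul_le_mul_of_nonneg_left h2 (hRn α)
        _ ≤ M * ((Real.sqrt δ * QL w L (lam * L * α) ^ 2 +
            C₀ / Real.sqrt δ * (δ + Real.sqrt θ) * I2 w + ε') * (T * N2 N b)) :=
            mul_le_mul_of_nonneg_right (hRM α hα.1 (hα.2.trans ha1)) h3
        _ = _ := by ring
    refine h1.trans ?_
    rw [intervalIntegral.integral_mul_const, intervalIntegral.integral_const_mul,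
      intervalIntegral.integral_add ((hqc.const_mul _).intervalIntegrable _ _) (by simp),
      intervalIntegral.integral_const_mul, intervalIntegral.integral_const, smul_eq_mul, sub_zero]
    refine mul_le_mul_of_nonneg_right ?_ hP
    refine mul_le_mul_of_nonneg_left ?_ hM
    refine add_le_add_left (mul_le_mul_of_nonneg_left ?_ hη.le) _
    rw [hS1]
    refine intervalIntegral.integral_mono_interval le_rfl ha0 ha1 ?_ (hqc.intervalIntegrable _ _)
    exact Eventually.of_forall fun α => by positivity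
  -- the second part
  have hb2 : (∫ α in a₀..1, R α * W α) ≤
      (M * (D ^ 2 / (δ ^ 2 * L)) + lam * I2 w * (∫ α in (0 : ℝ)..1, α * R α) +
        M * ((1 - a₀) * (C₀ * (δ + Real.sqrt θ) * I2 w + ε'))) * (T * N2 N b) := by
    have h1 : (∫ α in a₀..1, R α * W α) ≤ ∫ α in a₀..1,
        ((M * (D ^ 2 / (δ ^ 2 * L)) + M * (C₀ * (δ + Real.sqrt θ) * I2 w + ε')) +
          lam * I2 w * (α * R α)) * (T * N2 N b) := by
      refine intervalIntegral.integral_mono_on ha1 ((hRc.mul hWc).intervalIntegrable _ _)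
        (Continuous.intervalIntegrable (by fun_prop) _ _) fun α hα => ?_
      have h00 := ha0.trans hα.1
      have h2 := hhigh α hα.1 hα.2
      have hif : 3 * δ * L ≤ lam * L * α := by
        have h2 : 3 * δ ≤ α * lam := by
          have := hα.1
          rw [ha₀, div_le_iff₀ hlam] at this
          exact this
        have := mul_le_mul_of_nonneg_right h2 hL0.le
        linarith
      have h3 := q_tail (q := QL w L) hδ g2 c5 hif
      have h4 : R α * W α ≤ R α * ((D ^ 2 / (δ ^ 2 * L) + lam * α * I2 w + C₀ * (δ + Real.sqrt θ) * I2 w + ε') *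
          (T * N2 N b)) := by
        refine mul_le_mul_of_nonneg_left (h2.trans (mul_le_mul_of_nonneg_right ?_ hP)) (hRn α)
        linarith
      refine h4.trans ?_
      have h5 : R α * (D ^ 2 / (δ ^ 2 * L) + (C₀ * (δ + Real.sqrt θ) * I2 w + ε')) ≤
          M * (D ^ 2 / (δ ^ 2 * L) + (C₀ * (δ + Real.sqrt θ) * I2 w + ε')) :=
        mul_le_mul_of_nonneg_right (hRM α h00 hα.2) (by positivity)
      calc R α * ((D ^ 2 / (δ ^ 2 * L) + lam * α * I2 w + C₀ * (δ + Real.sqrt θ) * I2 w + ε') *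
          (T * N2 N b)) = (R α * (D ^ 2 / (δ ^ 2 * L) + (C₀ * (δ + Real.sqrt θ) * I2 w + ε')) +
            lam * I2 w * (α * R α)) * (T * N2 N b) := by ring
        _ ≤ _ := by
            refine mul_le_mul_of_nonneg_right ?_ hP
            linarith
    refine h1.trans ?_
    have hRa : Continuous fun α : ℝ => α * R α := continuous_id.mul hRc
    rw [intervalIntegral.integral_mul_const, intervalIntegral.integral_add (by simp)
      ((hRa.const_mul _).intervalIntegrable _ _), intervalIntegral.integral_const,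
      intervalIntegral.integral_const_mul, smul_eq_mul]
    refine mul_le_mul_of_nonneg_right ?_ hP
    have h2 : (∫ α in a₀..1, α * R α) ≤ ∫ α in (0 : ℝ)..1, α * R α := by
      refine intervalIntegral.integral_mono_interval ha0 ha1 le_rfl ?_ (hRa.intervalIntegrable _ _)
      refine (ae_restrict_iff' measurableSet_Ioc).mpr (Eventually.of_forall fun α hα => ?_)
      exact mul_nonneg hα.1.le (hRn α)
    have h3 := mul_le_mul_of_nonneg_left h2 (by positivity : 0 ≤ lam * I2 w)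
    have h4 : 0 ≤ M * (D ^ 2 / (δ ^ 2 * L)) := by positivity
    have h5 : (1 - a₀) * (M * (D ^ 2 / (δ ^ 2 * L))) ≤ M * (D ^ 2 / (δ ^ 2 * L)) :=
      mul_le_of_le_one_left h4 (by linarith)
    have e : (1 - a₀) * (M * (D ^ 2 / (δ ^ 2 * L)) + M * (C₀ * (δ + Real.sqrt θ) * I2 w + ε')) =
      (1 - a₀) * (M * (D ^ 2 / (δ ^ 2 * L))) + M * ((1 - a₀) * (C₀ * (δ + Real.sqrt θ) * I2 w + ε')) := by
      ring
    rw [e]
    linarith
  have h8 : 2 * (M * (D ^ 2 / (δ ^ 2 * L))) ≤ ε / 2 := by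
    have e : 2 * (M * (D ^ 2 / (δ ^ 2 * L))) = 2 * M * D ^ 2 / δ ^ 2 / L := by
      rw [div_div]
      ring
    rw [e]
    exact g3'
  have hx : M * (Real.sqrt δ * S1 + a₀ * (C₀ / Real.sqrt δ * (δ + Real.sqrt θ) * I2 w + ε')) +
      M * ((1 - a₀) * (C₀ * (δ + Real.sqrt θ) * I2 w + ε')) ≤
      M * (Real.sqrt δ * S1 + a₀ * (C₀ / Real.sqrt δ * (δ + Real.sqrt θ) * I2 w) +
      C₀ * (δ + Real.sqrt θ) * I2 w + ε') := by
    rw [← mul_add]
    refine mul_le_mul_of_nonneg_left ?_ hM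
    have : 0 ≤ a₀ * (C₀ * (δ + Real.sqrt θ) * I2 w) := by positivity
    linarith
  have hfin : 2 * (∫ α in (0 : ℝ)..a₀, R α * A α) + 2 * (∫ α in a₀..1, R α * W α) ≤
      (2 * (M * (Real.sqrt δ * S1 + a₀ * (C₀ / Real.sqrt δ * (δ + Real.sqrt θ) * I2 w + ε'))) +
        2 * (M * (D ^ 2 / (δ ^ 2 * L)) + lam * I2 w * (∫ α in (0 : ℝ)..1, α * R α) +
        M * ((1 - a₀) * (C₀ * (δ + Real.sqrt θ) * I2 w + ε')))) * (T * N2 N b) := by
    linarith
  refine hfin.trans (mul_le_mul_of_nonneg_right ?_ hP)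
  linarith

end

end Pool.Agent.U85.Zd
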