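import Pool.Agent.U85.Zd.Ci
import Pool.Agent.U85.Zd.Gp
import Pool.Agent.U85.Zd.La
import Pool.Agent.U85.Zd.Wnd

set_option autoImplicit false

/-!
The proportion of simple critical zeros and of distinct zeros relative to an arbitrary part of the mass
of a Dirichlet polynomial (after `Pool.Agent.Q97.UM.Wc`).
-/

namespace Pool.Agent.U85.Zd

open Filter Topology MeasureTheory Complex
open scoped ComplexConjugate
open Pool.Agent.Q97.UM

/-- the theorem for one window, one length and one density -/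
def ZD (κ c : ℝ) : Prop := ∀ ε : ℝ, 0 < ε → ∃ H₀ : ℝ, 1 ≤ H₀ ∧ ∀ H : ℝ, H₀ ≤ H → ∃ θ : ℝ, 0 < θ ∧ θ ≤ 1 / 40 ∧
  ∀ᶠ T : ℝ in atTop, ∀ N : ℕ, (N : ℝ) ≤ T ^ θ → ∀ (b : ℕ → ℂ) (ω : ℝ → ℝ), Measurable ω → (∀ t, 0 ≤ ω t) →
    (∀ t, ω t ≤ 1) →
    κ * (T * N2 N b) ≤ ∫ t in (T + 2 * Real.log T)..(2 * T - 2 * Real.log T), ω t * ‖dp N b t‖ ^ 2 →
    (2 - c - ε) * (H / Real.pi) *
        (∫ t in (T + 2 * Real.log T)..(2 * T - 2 * Real.log T), ω t * ‖dp N b t‖ ^ 2) ≤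
      ∫ t in (T + 2 * Real.log T)..(2 * T - 2 * Real.log T), Nsw T (H / Real.log T) t * (ω t * ‖dp N b t‖ ^ 2) ∧
    ((3 - c) / 2 - ε) * (H / Real.pi) *
        (∫ t in (T + 2 * Real.log T)..(2 * T - 2 * Real.log T), ω t * ‖dp N b t‖ ^ 2) ≤
      ∫ t in (T + 2 * Real.log T)..(2 * T - 2 * Real.log T), Ndw T (H / Real.log T) t * (ω t * ‖dp N b t‖ ^ 2) ∧
    |(∫ t in (T + 2 * Real.log T)..(2 * T - 2 * Real.log T), Nw T (H / Real.log T) t * (ω t * ‖dp N b t‖ ^ 2)) -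
      (H / Real.pi) * (∫ t in (T + 2 * Real.log T)..(2 * T - 2 * Real.log T), ω t * ‖dp N b t‖ ^ 2)| ≤
      ε * (H / Real.pi) *
        (∫ t in (T + 2 * Real.log T)..(2 * T - 2 * Real.log T), ω t * ‖dp N b t‖ ^ 2)

theorem t_ZD (hOM : S_OMEX) (hQH : S_QH) (hQLF : S_QLF) (hGP : S_GP) (hLI : S_LA) (hDE : S_DET) (hED : S_ED) (hER : S_ERR)
    (hTA : ∃ θ c C : ℝ, 0 < θ ∧ θ ≤ 1 / 4 ∧ 0 < c ∧ 0 ≤ C ∧ TailB θ c C)
    (g R : ℝ → ℝ) (hg : H295SI.Win g) (hR : H295SI.Conv R) (hK : H295SI.KSq g R)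
    (lam κ : ℝ) (hl0 : 0 < lam) (hl1 : lam < 1) (hκ0 : 0 < κ) (hκ1 : κ ≤ 1) :
    ZD κ (R 0 / lam + 2 * lam * (∫ α in (0 : ℝ)..1, α * R α) / κ) := by
  intro ε₀ hε₀
  obtain ⟨e, he⟩ : ∃ e, e = min ε₀ 1 := ⟨_, rfl⟩
  have he0 : 0 < e := by rw [he]; positivity
  have he1 : e ≤ 1 := by rw [he]; exact min_le_right _ _
  have hee : e ≤ ε₀ := by rw [he]; exact min_le_left _ _
  obtain ⟨k, hk⟩ : ∃ k, k = κ * (e / 32) := ⟨_, rfl⟩
  have hk0 : 0 < k := by rw [hk]; positivity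
  have hke : k ≤ e / 32 := by
    rw [hk]
    exact mul_le_of_le_one_left (by positivity) hκ1
  obtain ⟨J, hJ⟩ : ∃ J, J = ∫ α in (0 : ℝ)..1, α * R α := ⟨_, rfl⟩
  have hJ0 : 0 ≤ J := by
    rw [hJ]
    exact intervalIntegral.integral_nonneg (by norm_num) fun α hα => mul_nonneg hα.1 (hR.nonneg α)
  have hR00 : 0 ≤ R 0 := hR.nonneg 0
  rw [← hJ]
  obtain ⟨Kc, hKc⟩ : ∃ Kc, Kc = 1 + R 0 / lam + 2 * lam * J / κ := ⟨_, rfl⟩
  have hKa : R 0 / lam ≤ Kc := by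
    rw [hKc]
    have : 0 ≤ 2 * lam * J / κ := by positivity
    linarith
  have hKb : 2 * lam * J / κ ≤ Kc := by
    rw [hKc]
    have : 0 ≤ R 0 / lam := by positivity
    linarith
  have hKc0 : 0 ≤ Kc := le_trans (by positivity) hKa
  obtain ⟨D, hD0, hD⟩ := hR.lip
  obtain ⟨C₁, hC₁, hPA⟩ := hGP R D lam hD hR.nonneg hl0 hl1
  obtain ⟨C₀, hC₀, hLI⟩ := hLI
  obtain ⟨ϑ, c₀, C', hϑ0, hϑ1, hc₀, hC', hTB⟩ := hTA
  obtain ⟨C₂, hC₂, hEDB⟩ := hED ϑ c₀ C' hϑ0 hϑ1 hc₀ hC' hTB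
  obtain ⟨c, hc⟩ : ∃ c, c = min (c₀ / 4) 1 := ⟨_, rfl⟩
  have hc0 : 0 < c := by rw [hc]; positivity
  have hEDB' : EDB (ϑ / 2) c C₂ := EDB_mono hC₂ (by rw [hc]; exact min_le_left _ _) hEDB
  obtain ⟨K₀, hER⟩ := hER (ϑ / 2) c C₂ (by positivity) (by linarith) hc0 (by rw [hc]; exact min_le_right _ _) hC₂ hEDB'
  obtain ⟨K, hKd⟩ : ∃ K, K = max K₀ 2 := ⟨_, rfl⟩
  have hK2 : 2 ≤ K := by rw [hKd]; exact le_max_right _ _
  have hKK : K₀ ≤ K := by rw [hKd]; exact le_max_left _ _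
  obtain ⟨η, hη⟩ : ∃ η, η = k / (2 * C₁) := ⟨_, rfl⟩
  have hη0 : 0 < η := by rw [hη]; positivity
  have hηC : C₁ * η = k / 2 := by
    rw [hη]
    field_simp
  obtain ⟨δ, hδ⟩ : ∃ δ, δ = min (min (c / 100) (1 / 16)) (min (min (lam / 3) ((1 - lam) / 8)) (η ^ 2)) := ⟨_, rfl⟩
  have hδ0 : 0 < δ := by
    rw [hδ]
    have : 0 < 1 - lam := by linarith
    positivity
  have hδ1 : δ ≤ c / 100 := by rw [hδ]; exact (min_le_left _ _).trans (min_le_left _ _)
  have hδ2 : δ ≤ 1 / 16 := by rw [hδ]; exact (min_le_left _ _).trans (min_le_right _ _)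
  have hδ3 : δ ≤ lam / 3 := by
    rw [hδ]; exact (min_le_right _ _).trans ((min_le_left _ _).trans (min_le_left _ _))
  have hδ4 : δ ≤ (1 - lam) / 8 := by
    rw [hδ]; exact (min_le_right _ _).trans ((min_le_left _ _).trans (min_le_right _ _))
  have hδ5 : δ ≤ η ^ 2 := by rw [hδ]; exact (min_le_right _ _).trans (min_le_right _ _)
  obtain ⟨C₄, hC₄, hER⟩ := hER K hKK δ hδ0 hδ1
  obtain ⟨Cw, hCw, hOM⟩ := hOM K δ hδ0 (by linarith)
  have hpi := Real.pi_pos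
  obtain ⟨h₀, hh₀⟩ : ∃ h₀ : ℝ, h₀ = (4 * Cw ^ 2 + 100 * Cw ^ 2 * C₄ + (1 + Kc) * (8 * Cw ^ 4)) / k +
    2 * (C₀ / k) ^ 2 := ⟨_, rfl⟩
  have hh00 : 0 ≤ h₀ := by rw [hh₀]; positivity
  refine ⟨1 + Real.pi * h₀ + 4 * Cw ^ 4, by nlinarith [pow_pos (by linarith : 0 < Cw) 4], fun H hH => ?_⟩
  have hCw4 : 0 < Cw ^ 4 := by positivity
  have hH1 : 1 ≤ H := by nlinarith [mul_nonneg hpi.le hh00]
  obtain ⟨w, hw⟩ := hOM H hH1
  obtain ⟨q1, q2, q3, -, hq0, hI2⟩ := hQH δ H Cw K w hδ0 (by linarith) hH1 hCw hK2 hw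
  obtain ⟨Dq, hDq, hql⟩ := hQLF δ w hδ0 (by linarith) q1 q2 q3
  obtain ⟨h, hh⟩ : ∃ h, h = H / Real.pi := ⟨_, rfl⟩
  have hhH : H = h * Real.pi := by rw [hh]; field_simp
  have hhh : h₀ ≤ h := by
    rw [hh, le_div_iff₀ hpi]
    nlinarith
  have hh0 : 0 < h := by rw [hh]; positivity
  have hq0' : |qh w 0 - h| ≤ 4 * Cw ^ 2 / 3 := by
    have e1 : Real.pi * qh w 0 - H = Real.pi * (qh w 0 - h) := by rw [hhH]; ring
    rw [e1, abs_mul, abs_of_pos hpi] at hq0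
    have := Real.pi_gt_three
    have h2 := abs_nonneg (qh w 0 - h)
    nlinarith
  have hI2' : |I2 w - h| ≤ 4 * Cw ^ 4 / 3 := by
    have e1 : Real.pi * I2 w - H = Real.pi * (I2 w - h) := by rw [hhH]; ring
    rw [e1, abs_mul, abs_of_pos hpi] at hI2
    have := Real.pi_gt_three
    have h2 := abs_nonneg (I2 w - h)
    nlinarith
  -- consequences of `h₀ ≤ h`
  have hsum : 4 * Cw ^ 2 + 100 * Cw ^ 2 * C₄ + (1 + Kc) * (8 * Cw ^ 4) ≤ k * h := by
    have h1 : (4 * Cw ^ 2 + 100 * Cw ^ 2 * C₄ + (1 + Kc) * (8 * Cw ^ 4)) / k ≤ h := by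
      refine le_trans ?_ hhh
      rw [hh₀]
      have : 0 ≤ 2 * (C₀ / k) ^ 2 := by positivity
      linarith
    rw [div_le_iff₀ hk0] at h1
    linarith
  have p1 : 0 ≤ 4 * Cw ^ 2 := by positivity
  have p2 : 0 ≤ 100 * Cw ^ 2 * C₄ := by positivity
  have p3 : 0 ≤ 8 * Cw ^ 4 := by positivity
  have p4 : 0 ≤ Kc * (8 * Cw ^ 4) := by positivity
  have f1 : 4 * Cw ^ 2 ≤ k * h := by linarith
  have f2 : 100 * Cw ^ 2 * C₄ ≤ k * h := by linarith
  have f3 : 8 * Cw ^ 4 ≤ k * h := by linarith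
  have f3' : Kc * (8 * Cw ^ 4) ≤ k * h := by linarith
  have f4 : C₀ * Real.sqrt (2 * h) ≤ k * h := by
    have h1 : 2 * (C₀ / k) ^ 2 ≤ h := by
      refine le_trans ?_ hhh
      rw [hh₀]
      have h1 : 0 ≤ (4 * Cw ^ 2 + 100 * Cw ^ 2 * C₄ + (1 + Kc) * (8 * Cw ^ 4)) / k := by positivity
      linarith
    have h2 : Real.sqrt (2 * h) ≤ k / C₀ * h := by
      rw [Real.sqrt_le_left (by positivity)]
      have h3 : (k / C₀ * h) ^ 2 = h * ((k / C₀) ^ 2 * h) := by ring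
      rw [h3]
      have h4 : 2 ≤ (k / C₀) ^ 2 * h := by
        have h5 := mul_le_mul_of_nonneg_left h1 (by positivity : 0 ≤ (k / C₀) ^ 2)
        have h6 : (k / C₀) ^ 2 * (2 * (C₀ / k) ^ 2) = 2 := by field_simp
        linarith
      nlinarith
    have h7 := mul_le_mul_of_nonneg_left h2 (by linarith : 0 ≤ C₀)
    have h8 : C₀ * (k / C₀ * h) = k * h := by field_simp
    linarith
  have hk1 : k ≤ 1 / 32 := by linarith
  have hI2up : I2 w ≤ 2 * h := by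
    have := (abs_le.1 hI2').2
    nlinarith
  have hI20 : 0 ≤ I2 w := by
    have := (abs_le.1 hI2').1
    nlinarith
  obtain ⟨θ, hθ⟩ : ∃ θ, θ = min (min (ϑ / 2) (1 / 40)) (min ((1 - lam) / 4) (η ^ 2)) := ⟨_, rfl⟩
  have hθ0 : 0 < θ := by
    rw [hθ]
    have : 0 < 1 - lam := by linarith
    positivity
  have hθ1 : θ ≤ ϑ / 2 := by rw [hθ]; exact (min_le_left _ _).trans (min_le_left _ _)
  have hθ2 : θ ≤ 1 / 40 := by rw [hθ]; exact (min_le_left _ _).trans (min_le_right _ _)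
  have hθ3 : θ ≤ (1 - lam) / 4 := by rw [hθ]; exact (min_le_right _ _).trans (min_le_left _ _)
  have hθ4 : θ ≤ η ^ 2 := by rw [hθ]; exact (min_le_right _ _).trans (min_le_right _ _)
  refine ⟨θ, hθ0, hθ2, ?_⟩
  have hsδ : Real.sqrt δ ≤ η := by
    rw [Real.sqrt_le_left hη0.le]; exact hδ5
  have hsθ : Real.sqrt θ ≤ η := by
    rw [Real.sqrt_le_left hη0.le]; exact hθ4
  have hη1 : η ≤ 1 / 64 := by
    rw [hη, div_le_div_iff₀ (by positivity) (by norm_num)]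
    nlinarith
  have ePA := hPA δ H Cw K w θ (k * h) hδ0 hδ2 (by linarith) (by linarith) hH1 hCw hK2 hw hθ0 hθ2 (by positivity)
  have eLI := hLI δ H Cw K w θ (k * h) hδ0 hδ2 hH1 hCw hK2 hw hθ0 hθ2 (by positivity)
  have eDE := hDE g R lam hg hR hK hl0 hl1.le δ H Cw K w hδ0 (by linarith) hH1 hCw hK2 hw
  have eER := hER H hH1
  filter_upwards [ePA, eLI, eDE, eER, eventually_ge_atTop (16 : ℝ),
    Real.tendsto_log_atTop.eventually_ge_atTop 1] with T ePA eLI eDE eER hT16 hLT1 N hN b ω hω hω0 hω1 hmass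
  have hT0 : 0 < T := by linarith
  have hT1 : 1 ≤ T := by linarith
  have hNϑ : (N : ℝ) ≤ T ^ (ϑ / 2) := hN.trans (Real.rpow_le_rpow_of_exponent_le hT1 hθ1)
  obtain ⟨eQ, ePA⟩ := ePA
  replace ePA := ePA N hN b
  replace eLI := eLI N hN b
  replace eER := eER N hNϑ b
  have hL0 : 0 ≤ Real.log T := Real.log_nonneg hT1
  have hL4 : 4 * Real.log T ≤ T := by
    have h5 := Real.log_le_sub_one_of_pos (show (0 : ℝ) < T / 16 by positivity)
    rw [Real.log_div (by positivity) (by norm_num)] at h5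
    have h6 : Real.log 16 ≤ 3 := by
      have : Real.log 16 = 4 * Real.log 2 := by
        rw [show (16 : ℝ) = 2 ^ 4 by norm_num, Real.log_pow]; norm_num
      rw [this]; have := Real.log_two_lt_d9; linarith
    linarith
  have hxy : T + 2 * Real.log T ≤ 2 * T - 2 * Real.log T := by linarith
  have hdpc : Continuous (dp N b) := by
    unfold dp
    refine continuous_finsetSum _ fun n hn => ?_
    refine continuous_const.mul ?_
    have hn0 : (n : ℂ) ≠ 0 := by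
      have := (Finset.mem_Icc.1 hn).1
      exact_mod_cast (by omega : n ≠ 0)
    exact Continuous.const_cpow (by fun_prop) (Or.inl hn0)
  have hVc : Continuous (fun t : ℝ => ‖dp N b t‖ ^ 2) := (hdpc.norm).pow 2
  have hRc : Continuous R := by
    have h1 : LipschitzWith (Real.toNNReal D) R := by
      refine LipschitzWith.of_dist_le_mul fun x y => ?_
      rw [Real.dist_eq, Real.dist_eq]
      refine (hD x y).trans ?_
      exact mul_le_mul_of_nonneg_right (Real.le_coe_toNNReal D) (abs_nonneg _)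
    exact h1.continuous
  have hQLc : Continuous fun α : ℝ => QL w (Real.log T) (lam * Real.log T * α) :=
    (hql (Real.log T) hLT1).1.comp (by fun_prop)
  have ha0 : 0 ≤ 3 * δ / lam := by positivity
  have ha1 : 3 * δ / lam ≤ 1 := by
    rw [div_le_one hl0]
    linarith
  obtain ⟨g1, g2, g3⟩ := core_om (Q := qh w 0) hw hδ0 hH1 hRc hR.nonneg hVc (fun t => by positivity) hω hω0 hω1 hQLc hxy
    ha0 ha1 eDE
  set A := ∫ t in (T + 2 * Real.log T)..(2 * T - 2 * Real.log T), Nw T (H / Real.log T) t * (ω t * ‖dp N b t‖ ^ 2) with hA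
  set S := ∫ t in (T + 2 * Real.log T)..(2 * T - 2 * Real.log T), Nsw T (H / Real.log T) t * (ω t * ‖dp N b t‖ ^ 2) with hS
  set Dd := ∫ t in (T + 2 * Real.log T)..(2 * T - 2 * Real.log T), Ndw T (H / Real.log T) t * (ω t * ‖dp N b t‖ ^ 2) with hDd
  set E := ∫ t in (T + 2 * Real.log T)..(2 * T - 2 * Real.log T), ErrS δ H K T t * ‖dp N b t‖ ^ 2 with hE
  set M := ∫ t in (T + 2 * Real.log T)..(2 * T - 2 * Real.log T), ω t * ‖dp N b t‖ ^ 2 with hM
  set P1 := 2 * (∫ α in (0 : ℝ)..(3 * δ / lam), R α * QL w (Real.log T) (lam * Real.log T * α) ^ 2) with hP1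
  set P2 := 2 * (∫ α in (0 : ℝ)..(3 * δ / lam), R α * ∫ t in (T + 2 * Real.log T)..(2 * T - 2 * Real.log T),
        |‖Zt w T (lam * Real.log T * α) t‖ ^ 2 - QL w (Real.log T) (lam * Real.log T * α) ^ 2| * ‖dp N b t‖ ^ 2) +
      2 * (∫ α in (3 * δ / lam)..1, R α * ∫ t in (T + 2 * Real.log T)..(2 * T - 2 * Real.log T),
        ‖Zt w T (lam * Real.log T * α) t‖ ^ 2 * ‖dp N b t‖ ^ 2) with hP2
  set LI := ∫ t in (T + 2 * Real.log T)..(2 * T - 2 * Real.log T), |(Zt w T 0 t).re - qh w 0| * ‖dp N b t‖ ^ 2 with hLI'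
  obtain ⟨W, hW⟩ : ∃ W, W = T * N2 N b := ⟨_, rfl⟩
  have hW0 : 0 ≤ W := by rw [hW]; exact mul_nonneg hT0.le (N2_nonneg N b)
  rw [← hW] at hmass ePA
  have hM0 : 0 ≤ M := le_trans (mul_nonneg hκ0.le hW0) hmass
  have hkW : k * W ≤ e / 32 * M := by
    rw [hk]
    calc κ * (e / 32) * W = e / 32 * (κ * W) := by ring
      _ ≤ e / 32 * M := mul_le_mul_of_nonneg_left hmass (by positivity)
  have hkM : k * M ≤ e / 32 * M := mul_le_mul_of_nonneg_right hke hM0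
  have hkhW : k * h * W ≤ e / 32 * h * M := by
    have := mul_le_mul_of_nonneg_left hkW hh0.le
    linarith
  have hkhM : k * h * M ≤ e / 32 * h * M := by
    have := mul_le_mul_of_nonneg_left hkM hh0.le
    linarith
  have eER' : 100 * Cw ^ 2 * E ≤ e / 32 * h * M := by
    have h1 : 100 * Cw ^ 2 * E ≤ 100 * Cw ^ 2 * (C₄ * T * N2 N b) := mul_le_mul_of_nonneg_left eER (by positivity)
    have h2 : 100 * Cw ^ 2 * (C₄ * T * N2 N b) = 100 * Cw ^ 2 * C₄ * W := by rw [hW]; ring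
    rw [h2] at h1
    have h3 := mul_le_mul_of_nonneg_right f2 hW0
    linarith
  have eLI' : LI ≤ 2 * (e / 32) * h * M := by
    have h1 : Real.sqrt ((δ + Real.sqrt θ) * I2 w) ≤ Real.sqrt (2 * h) := by
      apply Real.sqrt_le_sqrt
      have : δ + Real.sqrt θ ≤ 1 := by linarith
      have h3 : 0 ≤ Real.sqrt θ := Real.sqrt_nonneg _
      nlinarith
    have h2 : C₀ * Real.sqrt ((δ + Real.sqrt θ) * I2 w) ≤ k * h :=
      (mul_le_mul_of_nonneg_left h1 (by linarith)).trans f4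
    have h3 : (C₀ * Real.sqrt ((δ + Real.sqrt θ) * I2 w) + k * h) * T * N2 N b =
        (C₀ * Real.sqrt ((δ + Real.sqrt θ) * I2 w) + k * h) * W := by rw [hW]; ring
    rw [h3] at eLI
    have h4 : (C₀ * Real.sqrt ((δ + Real.sqrt θ) * I2 w) + k * h) * W ≤ (k * h + k * h) * W :=
      mul_le_mul_of_nonneg_right (by linarith) hW0
    linarith
  have hqM : |qh w 0 - h| * M ≤ e / 32 * h * M := by
    have h1 : |qh w 0 - h| ≤ k * h := by
      refine hq0'.trans ?_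
      linarith
    exact (mul_le_mul_of_nonneg_right h1 hM0).trans hkhM
  have hAM : |A - h * M| ≤ 4 * (e / 32) * h * M := by
    have e1 : A - h * M = (A - qh w 0 * M) + (qh w 0 - h) * M := by ring
    rw [e1]
    refine (abs_add_le _ _).trans ?_
    rw [abs_mul (qh w 0 - h), abs_of_nonneg hM0]
    linarith
  have hC1s : C₁ * (Real.sqrt δ + Real.sqrt θ) * I2 w ≤ 2 * (k * h) := by
    have h3 : C₁ * (Real.sqrt δ + Real.sqrt θ) ≤ k := by
      have : C₁ * (Real.sqrt δ + Real.sqrt θ) ≤ C₁ * (2 * η) :=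
        mul_le_mul_of_nonneg_left (by linarith) (by linarith)
      linarith
    calc C₁ * (Real.sqrt δ + Real.sqrt θ) * I2 w ≤ k * (2 * h) :=
          mul_le_mul h3 hI2up hI20 hk0.le
      _ = _ := by ring
  have hI2h : I2 w ≤ h + 4 * Cw ^ 4 / 3 := by linarith [(abs_le.1 hI2').2]
  have hP1M : P1 * M ≤ (R 0 / lam + 4 * (e / 32)) * h * M := by
    have h1 : R 0 / lam * I2 w ≤ R 0 / lam * h + k * h := by
      have h2 : R 0 / lam * I2 w ≤ R 0 / lam * (h + 4 * Cw ^ 4 / 3) :=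
        mul_le_mul_of_nonneg_left hI2h (by positivity)
      have h3 : R 0 / lam * (4 * Cw ^ 4 / 3) ≤ Kc * (4 * Cw ^ 4 / 3) :=
        mul_le_mul_of_nonneg_right hKa (by positivity)
      linarith
    have h4 : P1 ≤ R 0 / lam * h + 4 * (k * h) := by linarith
    have h5 := mul_le_mul_of_nonneg_right h4 hM0
    linarith
  have hP2M : P2 ≤ (2 * lam * J / κ + 4 * (e / 32)) * h * M := by
    have h1 : 2 * lam * J * W ≤ 2 * lam * J / κ * M := by
      rw [div_mul_eq_mul_div, le_div_iff₀ hκ0]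
      calc 2 * lam * J * W * κ = 2 * lam * J * (κ * W) := by ring
        _ ≤ 2 * lam * J * M := mul_le_mul_of_nonneg_left hmass (by positivity)
    have h2 : 2 * lam * J * I2 w * W ≤ (2 * lam * J / κ) * h * M + e / 32 * h * M := by
      calc 2 * lam * J * I2 w * W = (2 * lam * J * W) * I2 w := by ring
        _ ≤ (2 * lam * J / κ * M) * I2 w := mul_le_mul_of_nonneg_right h1 hI20
        _ ≤ (2 * lam * J / κ * M) * (h + 4 * Cw ^ 4 / 3) :=
            mul_le_mul_of_nonneg_left hI2h (by positivity)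
        _ = (2 * lam * J / κ) * h * M + (2 * lam * J / κ) * (4 * Cw ^ 4 / 3) * M := by ring
        _ ≤ _ := by
            have h3 : (2 * lam * J / κ) * (4 * Cw ^ 4 / 3) ≤ Kc * (4 * Cw ^ 4 / 3) :=
              mul_le_mul_of_nonneg_right hKb (by positivity)
            have h4 : (2 * lam * J / κ) * (4 * Cw ^ 4 / 3) ≤ k * h := by linarith
            have h5 := mul_le_mul_of_nonneg_right h4 hM0
            linarith
    have h3 : P2 ≤ (2 * lam * J * I2 w + (2 * (k * h) + k * h)) * W := by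
      refine ePA.trans ?_
      rw [← hJ]
      exact mul_le_mul_of_nonneg_right (by linarith) hW0
    linarith
  have hkey : 0 ≤ e * h * M := by positivity
  have hkey2 : e * h * M ≤ ε₀ * h * M := by gcongr
  have hAl := abs_le.1 hAM
  rw [← hh]
  refine ⟨?_, ?_, ?_⟩
  · linarith [hAl.1, hAl.2]
  · linarith [hAl.1, hAl.2]
  · rw [abs_le]
    constructor <;> linarith [hAl.1, hAl.2]

end Pool.Agent.U85.Zd
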