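import Pool.Agent.Q97.UM.Base3
import Pool.Agent.U85.Zd.Wi
import Pool.Agent.U85.Chi.Const

set_option autoImplicit false

/-!
The theorem with the optimal constant, uniformly for the densities in `[ε, 1]`, with some room in the
condition on the mass.
-/

namespace Pool.Agent.U85.Zd

open Filter Topology MeasureTheory Complex
open Pool.Agent.Q97.UM Pool.Agent.U85.Chi

/-- the integral over the slightly shortened interval -/
noncomputable def mid (T : ℝ) (f : ℝ → ℝ) : ℝ := ∫ t in (T + 2 * Real.log T)..(2 * T - 2 * Real.log T), f t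

/-- the conclusion for one `T` -/
def Cn (H T c ε : ℝ) (f : ℝ → ℝ) : Prop :=
  (2 - c - ε) * (H / Real.pi) * mid T f ≤ mid T (fun t => Nsw T (H / Real.log T) t * f t) ∧
  ((3 - c) / 2 - ε) * (H / Real.pi) * mid T f ≤ mid T (fun t => Ndw T (H / Real.log T) t * f t) ∧
  |mid T (fun t => Nw T (H / Real.log T) t * f t) - (H / Real.pi) * mid T f| ≤ ε * (H / Real.pi) * mid T f

theorem Cn_mono {H T c ε c' ε' : ℝ} {f : ℝ → ℝ} (hH : 0 ≤ H) (hM : 0 ≤ mid T f) (h1 : c + ε ≤ c' + ε')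
    (h2 : c / 2 + ε ≤ c' / 2 + ε') (h3 : ε ≤ ε') (h : Cn H T c ε f) : Cn H T c' ε' f := by
  obtain ⟨a1, a2, a3⟩ := h
  have hH' : 0 ≤ H / Real.pi := div_nonneg hH Real.pi_pos.le
  refine ⟨le_trans ?_ a1, le_trans ?_ a2, a3.trans ?_⟩
  · exact mul_le_mul_of_nonneg_right (mul_le_mul_of_nonneg_right (by linarith) hH') hM
  · exact mul_le_mul_of_nonneg_right (mul_le_mul_of_nonneg_right (by linarith) hH') hM
  · exact mul_le_mul_of_nonneg_right (mul_le_mul_of_nonneg_right h3 hH') hM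

theorem b_ZA : S_ZA := t_ZA Pool.Agent.Q176.UM.t_QH Pool.Agent.Q247.UM.t_QLF Pool.Agent.Q222.UM.t_MV2 b_EFL b_PU

theorem b_LA : S_LA := t_LA Pool.Agent.Q176.UM.t_QH Pool.Agent.Q247.UM.t_QLF Pool.Agent.Q222.UM.t_MV2 b_EFL b_PU

theorem b_GP : S_GP := t_GP Pool.Agent.Q176.UM.t_QH Pool.Agent.Q247.UM.t_QLF b_ZU b_ZA

/-- one density, some constant below every number above `cst κ` -/
theorem b_ZD (κ c : ℝ) (hκ : 0 < κ) (hκ1 : κ ≤ 1) (hc : cst κ < c) : ∃ c' : ℝ, c' ≤ c ∧ ZD κ c' := by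
  obtain ⟨γ, β, hγ, hγπ, hβ, hβ1, hv⟩ := exists_window κ c hκ hc
  exact ⟨_, hv.le, t_ZD Pool.Agent.Q247.UM.t_OMEX Pool.Agent.Q176.UM.t_QH Pool.Agent.Q247.UM.t_QLF b_GP b_LA b_DET b_ED
    b_ERR b_TAIL (H385.gw γ) (H385.Rw γ) (win γ hγ hγπ) (conv γ hγ hγπ) (ksq γ hγ hγπ) β κ hβ hβ1 hκ hκ1⟩

theorem cst_nonneg (κ : ℝ) (hκ : 0 < κ) : 0 ≤ cst κ := by
  by_contra hcon
  push Not at hcon
  obtain ⟨γ, β, hγ, hγπ, hβ, hβ1, hv⟩ := exists_window κ 0 hκ hcon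
  have hR := conv γ hγ hγπ
  have hJ0 : 0 ≤ ∫ α in (0 : ℝ)..1, α * H385.Rw γ α :=
    intervalIntegral.integral_nonneg (by norm_num) fun α hα => mul_nonneg hα.1 (hR.nonneg α)
  have h0 := hR.nonneg 0
  have : 0 ≤ H385.Rw γ 0 / β + 2 * β * (∫ α in (0 : ℝ)..1, α * H385.Rw γ α) / κ := by positivity
  linarith

/-- the bound with the optimal constant, uniformly for the densities in a set -/
def UBZ (ε : ℝ) (s : Set ℝ) : Prop :=
  ∃ δ : ℝ, 0 < δ ∧ ∃ H₀ : ℝ, 1 ≤ H₀ ∧ ∀ H : ℝ, H₀ ≤ H → ∃ θ : ℝ, 0 < θ ∧ θ ≤ 1 / 40 ∧ ∀ᶠ T : ℝ in atTop,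
    ∀ κ ∈ s, ∀ N : ℕ, (N : ℝ) ≤ T ^ θ → ∀ (b : ℕ → ℂ) (ω : ℝ → ℝ), Measurable ω → (∀ t, 0 ≤ ω t) → (∀ t, ω t ≤ 1) →
      (κ - δ) * (T * N2 N b) ≤ mid T (fun t => ω t * ‖dp N b t‖ ^ 2) →
      Cn H T (cst κ) ε (fun t => ω t * ‖dp N b t‖ ^ 2)

theorem uniZ (ε : ℝ) (hε : 0 < ε) : UBZ ε (Set.Icc ε 1) := by
  refine (isCompact_Icc : IsCompact (Set.Icc ε (1 : ℝ))).induction_on (p := UBZ ε) ?_ ?_ ?_ ?_
  · exact ⟨1, one_pos, 1, le_rfl, fun H _ => ⟨1 / 40, by norm_num, le_rfl,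
      Filter.Eventually.of_forall fun T κ hκ => absurd hκ (Set.notMem_empty κ)⟩⟩
  · rintro s t hst ⟨δ, hδ, H₀, hH₀, h⟩
    refine ⟨δ, hδ, H₀, hH₀, fun H hH => ?_⟩
    obtain ⟨θ, h1, h2, h3⟩ := h H hH
    refine ⟨θ, h1, h2, ?_⟩
    filter_upwards [h3] with T h3 κ hκ
    exact h3 κ (hst hκ)
  · rintro s t ⟨δ, hδ, H₀, hH₀, h⟩ ⟨δ', hδ', H₀', hH₀', h'⟩
    refine ⟨min δ δ', lt_min hδ hδ', max H₀ H₀', le_max_of_le_left hH₀, fun H hH => ?_⟩
    obtain ⟨θ, h1, h2, h3⟩ := h H ((le_max_left _ _).trans hH)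
    obtain ⟨θ', h1', h2', h3'⟩ := h' H ((le_max_right _ _).trans hH)
    refine ⟨min θ θ', lt_min h1 h1', (min_le_left _ _).trans h2, ?_⟩
    filter_upwards [h3, h3', eventually_ge_atTop (1 : ℝ)] with T h3 h3' hT κ hκ N hN b ω w1 w2 w3 hm
    have hW : 0 ≤ T * N2 N b := mul_nonneg (by linarith) (N2_nonneg N b)
    rcases hκ with hκ | hκ
    · refine h3 κ hκ N (hN.trans (Real.rpow_le_rpow_of_exponent_le hT (min_le_left _ _))) b ω w1 w2 w3 (le_trans ?_ hm)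
      exact mul_le_mul_of_nonneg_right (by linarith [min_le_left δ δ']) hW
    · refine h3' κ hκ N (hN.trans (Real.rpow_le_rpow_of_exponent_le hT (min_le_right _ _))) b ω w1 w2 w3 (le_trans ?_ hm)
      exact mul_le_mul_of_nonneg_right (by linarith [min_le_right δ δ']) hW
  · intro x hx
    have hx0 : 0 < x := hε.trans_le hx.1
    have hc := cst_cont x hx0
    rw [Metric.continuousAt_iff] at hc
    obtain ⟨d, hd, hd1⟩ := hc (ε / 4) (by positivity)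
    set δ : ℝ := min (d / 4) (x / 4) with hδ
    have hδ0 : 0 < δ := by positivity
    have hδd : 4 * δ ≤ d := by linarith [min_le_left (d / 4) (x / 4)]
    have hδx : 4 * δ ≤ x := by linarith [min_le_right (d / 4) (x / 4)]
    have hcx : ∀ y : ℝ, |y - x| < d → |cst y - cst x| < ε / 4 := by
      intro y hy
      have := hd1 (x := y) (by rw [Real.dist_eq]; exact hy)
      rwa [Real.dist_eq] at this
    have hy0 : 0 < x - 2 * δ := by linarith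
    have hy1 : x - 2 * δ ≤ 1 := by linarith [hx.2]
    have h1 : cst (x - 2 * δ) < cst x + ε / 4 := by
      have := (abs_lt.mp (hcx (x - 2 * δ) (by rw [abs_lt]; constructor <;> linarith))).2
      linarith
    obtain ⟨c', hc', hZ⟩ := b_ZD (x - 2 * δ) _ hy0 hy1 h1
    obtain ⟨H₀, hH₀, hZ⟩ := hZ (ε / 4) (by positivity)
    refine ⟨Set.Ioo (x - δ) (x + δ), mem_nhdsWithin_of_mem_nhds
      (Ioo_mem_nhds (by linarith) (by linarith)), δ, hδ0, H₀, hH₀, fun H hH => ?_⟩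
    obtain ⟨θ, t1, t2, hZ⟩ := hZ H hH
    refine ⟨θ, t1, t2, ?_⟩
    filter_upwards [hZ, eventually_ge_atTop (1 : ℝ)] with T hZ hT κ hκ N hN b ω w1 w2 w3 hm
    have hW : 0 ≤ T * N2 N b := mul_nonneg (by linarith) (N2_nonneg N b)
    have hm' : (x - 2 * δ) * (T * N2 N b) ≤ mid T (fun t => ω t * ‖dp N b t‖ ^ 2) :=
      le_trans (mul_le_mul_of_nonneg_right (by linarith [hκ.1]) hW) hm
    have hM : 0 ≤ mid T (fun t => ω t * ‖dp N b t‖ ^ 2) := le_trans (mul_nonneg hy0.le hW) hm'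
    have key : Cn H T c' (ε / 4) (fun t => ω t * ‖dp N b t‖ ^ 2) := hZ N hN b ω w1 w2 w3 hm'
    have h2 := (abs_lt.mp (hcx κ (by rw [abs_lt]; constructor <;> linarith [hκ.1, hκ.2]))).1
    exact Cn_mono (by linarith) hM (by linarith) (by linarith) (by linarith) key

end Pool.Agent.U85.Zd
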